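import Pool.Agent.U529.CV.Snd

/-! All `X` and `H` at once. -/

set_option autoImplicit false

namespace Pool.Agent.U529.CV

open Finset Filter Topology MeasureTheory

/-- the bad characters at the point `k` -/
def Bad (q : ℕ) (a : ℕ → ℂ) (L K k : ℕ) (χ : DirichletCharacter ℂ q) : Prop :=
  K ≤ k ∧ 36 * ((k : ℝ) ^ L) ^ 2 < q ∧ ∃ i : ℕ, i < (L + 2) * k ∧ (2 : ℝ) ^ i * (k : ℝ) ^ 16 ≤ 2 * (k : ℝ) ^ L ∧
    ((∃ H : ℝ, 2 ^ i ≤ H ∧ H < 2 * 2 ^ i ∧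
      5 * (1 / (k : ℝ) * 2 ^ i * (k : ℝ) ^ L) < |W q a ((k : ℝ) ^ L) (2 * ((k : ℝ) + 1) ^ L) χ H|) ∨
     (∃ H : ℝ, 2 ^ i ≤ H ∧ H < 2 * 2 ^ i ∧
      5 * (1 / (k : ℝ) * 2 ^ i * (k : ℝ) ^ L) < |W q a (((k : ℝ) + 1) ^ L) (2 * (k : ℝ) ^ L) χ H|))

/-- the constant -/
noncomputable def CS (L : ℕ) : ℝ := 1248 * ((L : ℝ) + 3) ^ 3

open Classical in
theorem bad_card (q : ℕ) [hq : Fact q.Prime] (a : ℕ → ℂ) (ha : ∀ n, ‖a n‖ ≤ 1) (L K k : ℕ) (hK : 2 ^ L ≤ K)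
    (hL : 1 ≤ L) :
    ((univ.filter (fun χ : DirichletCharacter ℂ q => Bad q a L K k χ)).card : ℝ) ≤
      ((q - 1 : ℕ) : ℝ) * (2 * CS L * (1 / (max k K : ℕ) - 1 / (max (k + 1) K : ℕ))) := by
  have hq1 : (0 : ℝ) ≤ ((q - 1 : ℕ) : ℝ) := Nat.cast_nonneg _
  have hCS : 0 ≤ CS L := by unfold CS; positivity
  have hK1 : 1 ≤ K := le_trans Nat.one_le_two_pow hK
  by_cases hkK : K ≤ k
  swap
  · have e : univ.filter (fun χ : DirichletCharacter ℂ q => Bad q a L K k χ) = ∅ := by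
      rw [filter_eq_empty_iff]
      intro χ _ h
      exact hkK h.1
    rw [e, card_empty, Nat.cast_zero]
    have h1 : max k K = K := max_eq_right (by omega)
    have h2 : max (k + 1) K = K := max_eq_right (by omega)
    rw [h1, h2]
    simp
  by_cases hqk : 36 * ((k : ℝ) ^ L) ^ 2 < q
  swap
  · have e : univ.filter (fun χ : DirichletCharacter ℂ q => Bad q a L K k χ) = ∅ := by
      rw [filter_eq_empty_iff]
      intro χ _ h
      exact hqk h.2.1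
    rw [e, card_empty, Nat.cast_zero]
    refine mul_nonneg hq1 (mul_nonneg (by positivity) ?_)
    rw [sub_nonneg]
    refine one_div_le_one_div_of_le ?_ ?_
    · have : 0 < max k K := by omega
      exact_mod_cast this
    · have : max k K ≤ max (k + 1) K := by omega
      exact_mod_cast this
  have hk2L : 2 ^ L ≤ k := hK.trans hkK
  have hk2 : 2 ≤ k := by
    have : 2 ^ 1 ≤ 2 ^ L := Nat.pow_le_pow_right (by norm_num) hL
    omega
  have hkr : (2 : ℝ) ≤ k := by exact_mod_cast hk2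
  have hk0 : (0 : ℝ) < k := by linarith
  have hk2Lr : (2 : ℝ) ^ L ≤ k := by exact_mod_cast hk2L
  set P : ℝ := (k : ℝ) ^ L with hP
  set P' : ℝ := ((k : ℝ) + 1) ^ L with hP'
  have hP1 : 1 ≤ P := one_le_pow₀ (by linarith)
  have hP0 : 0 < P := by linarith
  have hPP : P ≤ P' := pow_le_pow_left₀ hk0.le (by linarith) L
  have hPP2 : P' ≤ 2 * P := by
    have h1 := pow_conv L k (by omega)
    have h2 : 2 ^ L * (k : ℝ) ^ L / k ≤ (k : ℝ) ^ L := by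
      rw [div_le_iff₀ hk0, mul_comm]
      exact mul_le_mul_of_nonneg_left hk2Lr (by positivity)
    linarith
  have hk16 : (4 : ℝ) ≤ (k : ℝ) ^ 16 := by
    calc (4 : ℝ) ≤ 2 ^ 16 := by norm_num
      _ ≤ (k : ℝ) ^ 16 := pow_le_pow_left₀ (by norm_num) hkr 16
  -- one dyadic block
  have hblk : ∀ i : ℕ, i < (L + 2) * k → (2 : ℝ) ^ i * (k : ℝ) ^ 16 ≤ 2 * P → ∀ A B : ℝ, A ≤ B → B ≤ 4 * P →
      ((univ.filter (fun χ : DirichletCharacter ℂ q => ∃ H : ℝ, 2 ^ i ≤ H ∧ H < 2 * 2 ^ i ∧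
      5 * (1 / (k : ℝ) * 2 ^ i * P) < |W q a A B χ H|)).card : ℝ) ≤
      ((q - 1 : ℕ) : ℝ) * (624 * ((L : ℝ) + 3) ^ 2 / (k : ℝ) ^ 12) := by
    intro i hi1 hi2 A B hAB hB
    have h2i : (1 : ℝ) ≤ 2 ^ i := one_le_pow₀ (by norm_num)
    have h2P : (2 : ℝ) ^ i * 4 ≤ 2 * P :=
      le_trans (mul_le_mul_of_nonneg_left hk16 (by positivity)) hi2
    have h1 := block q a ha hP1 hAB h2i (by linarith) hqk (η := 1 / (k : ℝ)) (by positivity)
    refine h1.trans (mul_le_mul_of_nonneg_left ?_ hq1)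
    have hlog : 1 + Real.log (2 ^ i) ≤ ((L : ℝ) + 3) * k := by
      rw [Real.log_pow]
      have h3 : (i : ℝ) ≤ ((L : ℝ) + 2) * k := by exact_mod_cast hi1.le
      have h4 : (i : ℝ) * Real.log 2 ≤ i * 1 := by
        refine mul_le_mul_of_nonneg_left ?_ (Nat.cast_nonneg i)
        have := Real.log_two_lt_d9
        linarith
      nlinarith
    have hlog0 : 0 ≤ 1 + Real.log (2 ^ i) := by
      have := Real.log_nonneg h2i
      linarith
    have hlog2 : (1 + Real.log (2 ^ i)) ^ 2 ≤ (((L : ℝ) + 3) * k) ^ 2 := pow_le_pow_left₀ hlog0 hlog 2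
    rw [div_le_div_iff₀ (by positivity) (by positivity)]
    have e1 : (1 / (k : ℝ)) ^ 2 * P = P / k ^ 2 := by field_simp
    rw [e1]
    calc 312 * (2 ^ i * (1 + Real.log (2 ^ i)) ^ 2) * (k : ℝ) ^ 12
        ≤ 312 * (2 ^ i * (((L : ℝ) + 3) * k) ^ 2) * (k : ℝ) ^ 12 := by
          refine mul_le_mul_of_nonneg_right ?_ (by positivity)
          refine mul_le_mul_of_nonneg_left ?_ (by norm_num)
          exact mul_le_mul_of_nonneg_left hlog2 (by positivity)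
      _ = 312 * ((L : ℝ) + 3) ^ 2 * (2 ^ i * (k : ℝ) ^ 16) / (k : ℝ) ^ 2 := by
          field_simp
      _ ≤ 312 * ((L : ℝ) + 3) ^ 2 * (2 * P) / (k : ℝ) ^ 2 := by
          refine div_le_div_of_nonneg_right ?_ (by positivity)
          exact mul_le_mul_of_nonneg_left hi2 (by positivity)
      _ = 624 * ((L : ℝ) + 3) ^ 2 * (P / (k : ℝ) ^ 2) := by ring
  have hsub : univ.filter (fun χ : DirichletCharacter ℂ q => Bad q a L K k χ) ⊆
      ((range ((L + 2) * k)).filter (fun i => (2 : ℝ) ^ i * (k : ℝ) ^ 16 ≤ 2 * P)).biUnion (fun i =>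
        univ.filter (fun χ : DirichletCharacter ℂ q => ∃ H : ℝ, 2 ^ i ≤ H ∧ H < 2 * 2 ^ i ∧
          5 * (1 / (k : ℝ) * 2 ^ i * P) < |W q a P (2 * P') χ H|) ∪
        univ.filter (fun χ : DirichletCharacter ℂ q => ∃ H : ℝ, 2 ^ i ≤ H ∧ H < 2 * 2 ^ i ∧
          5 * (1 / (k : ℝ) * 2 ^ i * P) < |W q a P' (2 * P) χ H|)) := by
    intro χ hχ
    rw [mem_filter] at hχ
    obtain ⟨_, _, _, i, hi1, hi2, hi3⟩ := hχ
    rw [mem_biUnion]
    refine ⟨i, mem_filter.2 ⟨mem_range.2 hi1, hi2⟩, ?_⟩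
    rw [mem_union, mem_filter, mem_filter]
    rcases hi3 with h | h
    · exact Or.inl ⟨mem_univ _, h⟩
    · exact Or.inr ⟨mem_univ _, h⟩
  have h1 := (card_le_card hsub).trans card_biUnion_le
  have h2 : ((univ.filter (fun χ : DirichletCharacter ℂ q => Bad q a L K k χ)).card : ℝ) ≤
      ∑ i ∈ (range ((L + 2) * k)).filter (fun i => (2 : ℝ) ^ i * (k : ℝ) ^ 16 ≤ 2 * P),
        (2 * (((q - 1 : ℕ) : ℝ) * (624 * ((L : ℝ) + 3) ^ 2 / (k : ℝ) ^ 12))) := by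
    refine le_trans (Nat.cast_le.2 h1) ?_
    rw [Nat.cast_sum]
    refine sum_le_sum fun i hi => ?_
    rw [mem_filter, mem_range] at hi
    have b1 := hblk i hi.1 hi.2 P (2 * P') (by linarith) (by linarith)
    have b2 := hblk i hi.1 hi.2 P' (2 * P) hPP2 (by linarith)
    refine le_trans (Nat.cast_le.2 (card_union_le _ _)) ?_
    push_cast
    linarith
  refine h2.trans ?_
  rw [sum_const, nsmul_eq_mul]
  have h3 : (((range ((L + 2) * k)).filter (fun i => (2 : ℝ) ^ i * (k : ℝ) ^ 16 ≤ 2 * P)).card : ℝ) ≤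
      ((L : ℝ) + 3) * k := by
    have : ((range ((L + 2) * k)).filter (fun i => (2 : ℝ) ^ i * (k : ℝ) ^ 16 ≤ 2 * P)).card ≤ (L + 2) * k :=
      (card_filter_le _ _).trans (by rw [card_range])
    have h4 : (((range ((L + 2) * k)).filter (fun i => (2 : ℝ) ^ i * (k : ℝ) ^ 16 ≤ 2 * P)).card : ℝ) ≤
      ((L : ℝ) + 2) * k := by exact_mod_cast this
    nlinarith
  have hm1 : max k K = k := max_eq_left hkK
  have hm2 : max (k + 1) K = k + 1 := max_eq_left (by omega)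
  rw [hm1, hm2]
  calc (((range ((L + 2) * k)).filter (fun i => (2 : ℝ) ^ i * (k : ℝ) ^ 16 ≤ 2 * P)).card : ℝ) *
        (2 * (((q - 1 : ℕ) : ℝ) * (624 * ((L : ℝ) + 3) ^ 2 / (k : ℝ) ^ 12)))
      ≤ (((L : ℝ) + 3) * k) * (2 * (((q - 1 : ℕ) : ℝ) * (624 * ((L : ℝ) + 3) ^ 2 / (k : ℝ) ^ 12))) :=
        mul_le_mul_of_nonneg_right h3 (by positivity)
    _ = ((q - 1 : ℕ) : ℝ) * (CS L * (1 / (k : ℝ) ^ 11)) := by
        unfold CS
        field_simp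
        ring
    _ ≤ ((q - 1 : ℕ) : ℝ) * (CS L * (2 * (1 / (k : ℝ) - 1 / ((k + 1 : ℕ) : ℝ)))) := by
        refine mul_le_mul_of_nonneg_left (mul_le_mul_of_nonneg_left ?_ hCS) hq1
        push_cast
        have e : 2 * (1 / (k : ℝ) - 1 / ((k : ℝ) + 1)) = 2 / (k * (k + 1)) := by field_simp; ring
        rw [e, div_le_div_iff₀ (by positivity) (by positivity)]
        have h5 : (k : ℝ) ^ 2 ≤ (k : ℝ) ^ 11 := pow_le_pow_right₀ (by linarith) (by norm_num)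
        nlinarith
    _ = _ := by ring

open Classical in
theorem all_bad (q : ℕ) [hq : Fact q.Prime] (a : ℕ → ℂ) (ha : ∀ n, ‖a n‖ ≤ 1) (L K : ℕ) (hK : 2 ^ L ≤ K)
    (hL : 1 ≤ L) :
    ((univ.filter (fun χ : DirichletCharacter ℂ q => ∃ k, Bad q a L K k χ)).card : ℝ) ≤
      ((q - 1 : ℕ) : ℝ) * (2 * CS L / K) := by
  have hK1 : 1 ≤ K := le_trans Nat.one_le_two_pow hK
  have hKr : (0 : ℝ) < K := by exact_mod_cast hK1
  have hq1 : (0 : ℝ) ≤ ((q - 1 : ℕ) : ℝ) := Nat.cast_nonneg _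
  have hCS : 0 ≤ CS L := by unfold CS; positivity
  refine iUnion_card (fun k χ => Bad q a L K k χ) (fun k =>
    ((q - 1 : ℕ) : ℝ) * (2 * CS L * (1 / (max k K : ℕ) - 1 / (max (k + 1) K : ℕ)))) _
    (fun k => bad_card q a ha L K k hK hL) ?_
  intro M
  rw [← mul_sum, ← mul_sum]
  have h1 : ∑ k ∈ range M, (1 / ((max k K : ℕ) : ℝ) - 1 / ((max (k + 1) K : ℕ) : ℝ)) =
      1 / ((max 0 K : ℕ) : ℝ) - 1 / ((max M K : ℕ) : ℝ) :=
    sum_range_sub' (fun k => 1 / ((max k K : ℕ) : ℝ)) M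
  rw [h1]
  refine mul_le_mul_of_nonneg_left ?_ hq1
  have e0 : max 0 K = K := max_eq_right (Nat.zero_le _)
  rw [e0]
  have h2 : 0 ≤ 1 / ((max M K : ℕ) : ℝ) := by positivity
  calc 2 * CS L * (1 / (K : ℝ) - 1 / ((max M K : ℕ) : ℝ)) ≤ 2 * CS L * (1 / (K : ℝ)) :=
        mul_le_mul_of_nonneg_left (by linarith) (by positivity)
    _ = _ := by ring

/-- a character which is never bad -/
theorem good (q : ℕ) [Fact q.Prime] (a : ℕ → ℂ) (ha : ∀ n, ‖a n‖ ≤ 1) (L K : ℕ) (hK : 2 ^ L ≤ K)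
    (hL : 1 ≤ L) (ε : ℝ) (hε : 16 ≤ ε * L) (χ : DirichletCharacter ℂ q) (hχ : ∀ k, ¬ Bad q a L K k χ)
    (X H : ℝ) (hKX : (K : ℝ) ^ L ≤ X) (hXq : 36 * X ^ 2 < q) (hH1 : 1 ≤ H) (hH2 : H ≤ X ^ (1 - ε)) :
    |W q a X (2 * X) χ H| ≤ (10 + 12 * 2 ^ L) * (H * X * X ^ (-(1 / (L : ℝ)))) := by
  have hK1 : 1 ≤ K := le_trans Nat.one_le_two_pow hK
  have hLr : (0 : ℝ) < L := by exact_mod_cast hL
  have hKr : (1 : ℝ) ≤ K := by exact_mod_cast hK1
  have hX1 : 1 ≤ X := le_trans (one_le_pow₀ hKr) hKX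
  have hX0 : 0 < X := by linarith
  set y : ℝ := X ^ (1 / (L : ℝ)) with hy
  have hyL : y ^ L = X := by
    rw [hy, ← Real.rpow_natCast, ← Real.rpow_mul hX0.le, one_div, inv_mul_cancel₀ hLr.ne', Real.rpow_one]
  have hy0 : 0 < y := Real.rpow_pos_of_pos hX0 _
  have hKy : (K : ℝ) ≤ y := by
    by_contra h
    push Not at h
    have := pow_lt_pow_left₀ h hy0.le (by omega : L ≠ 0)
    rw [hyL] at this
    linarith
  set k := ⌊y⌋₊ with hk
  have hky : (k : ℝ) ≤ y := Nat.floor_le hy0.le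
  have hyk : y < k + 1 := Nat.lt_floor_add_one y
  have hKk : K ≤ k := Nat.le_floor hKy
  have hk2 : 2 ≤ k := by
    have : 2 ^ 1 ≤ 2 ^ L := Nat.pow_le_pow_right (by norm_num) hL
    omega
  have hkr : (2 : ℝ) ≤ k := by exact_mod_cast hk2
  have hk0 : (0 : ℝ) < k := by linarith
  have hPX : (k : ℝ) ^ L ≤ X := by rw [← hyL]; exact pow_le_pow_left₀ hk0.le hky L
  have hXP : X ≤ ((k : ℝ) + 1) ^ L := by rw [← hyL]; exact pow_le_pow_left₀ hy0.le hyk.le L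
  have hk2Lr : (2 : ℝ) ^ L ≤ k := by exact_mod_cast hK.trans hKk
  have hconv := pow_conv L k (by omega)
  have hPP2 : ((k : ℝ) + 1) ^ L ≤ 2 * (k : ℝ) ^ L := by
    have h2 : 2 ^ L * (k : ℝ) ^ L / k ≤ (k : ℝ) ^ L := by
      rw [div_le_iff₀ hk0, mul_comm]
      exact mul_le_mul_of_nonneg_left hk2Lr (by positivity)
    linarith
  have hP0 : (0 : ℝ) < (k : ℝ) ^ L := by positivity
  have hqk : 36 * ((k : ℝ) ^ L) ^ 2 < q := by
    have : ((k : ℝ) ^ L) ^ 2 ≤ X ^ 2 := pow_le_pow_left₀ hP0.le hPX 2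
    linarith
  -- the dyadic block of `H`
  set i := Nat.log 2 ⌊H⌋₊ with hi
  have hfl : 1 ≤ ⌊H⌋₊ := (Nat.one_le_floor_iff _).2 hH1
  have hi1 : (2 : ℝ) ^ i ≤ H := by
    have h1 : 2 ^ i ≤ ⌊H⌋₊ := Nat.pow_log_le_self 2 (by omega)
    have h2 : ((2 ^ i : ℕ) : ℝ) ≤ (⌊H⌋₊ : ℝ) := by exact_mod_cast h1
    push_cast at h2
    exact h2.trans (Nat.floor_le (by linarith))
  have hi2 : H < 2 * 2 ^ i := by
    have h1 : ⌊H⌋₊ < 2 ^ (i + 1) := Nat.lt_pow_succ_log_self (by norm_num) _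
    have h2 : ⌊H⌋₊ + 1 ≤ 2 ^ (i + 1) := h1
    have h3 : ((⌊H⌋₊ + 1 : ℕ) : ℝ) ≤ ((2 ^ (i + 1) : ℕ) : ℝ) := by exact_mod_cast h2
    push_cast at h3
    have h4 := Nat.lt_floor_add_one H
    rw [pow_succ] at h3
    linarith
  have hi3 : (2 : ℝ) ^ i * (k : ℝ) ^ 16 ≤ 2 * (k : ℝ) ^ L := by
    have h1 : (k : ℝ) ^ 16 ≤ X ^ ε := by
      have h2 : (k : ℝ) ^ (16 : ℝ) ≤ y ^ (16 : ℝ) := Real.rpow_le_rpow hk0.le hky (by norm_num)
      have hy1 : 1 ≤ y := le_trans hKr hKy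
      have h3 : y ^ (16 : ℝ) ≤ y ^ (ε * L) := Real.rpow_le_rpow_of_exponent_le hy1 hε
      have h4 : y ^ (ε * L) = X ^ ε := by
        rw [hy, ← Real.rpow_mul hX0.le]
        congr 1
        field_simp
      have h5 : (k : ℝ) ^ (16 : ℝ) = (k : ℝ) ^ 16 := by
        rw [← Real.rpow_natCast]; norm_num
      rw [← h5, ← h4]
      exact h2.trans h3
    calc (2 : ℝ) ^ i * (k : ℝ) ^ 16 ≤ X ^ (1 - ε) * X ^ ε :=
          mul_le_mul (hi1.trans hH2) h1 (by positivity) (by positivity)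
      _ = X := by rw [← Real.rpow_add hX0]; simp
      _ ≤ 2 * (k : ℝ) ^ L := hXP.trans hPP2
  have hi4 : i < (L + 2) * k := by
    have h1 : (2 : ℝ) ^ i ≤ 2 * (k : ℝ) ^ L := by
      have : (2 : ℝ) ^ i * 1 ≤ (2 : ℝ) ^ i * (k : ℝ) ^ 16 :=
        mul_le_mul_of_nonneg_left (one_le_pow₀ (by linarith)) (by positivity)
      linarith
    have h2 : 2 ^ i ≤ 2 * k ^ L := by exact_mod_cast h1
    have h3 : k ^ L ≤ (2 ^ k) ^ L := Nat.pow_le_pow_left (Nat.lt_two_pow_self).le L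
    have h4 : 2 ^ i ≤ 2 ^ (1 + k * L) := by
      rw [pow_add, pow_mul, pow_one]
      omega
    have h5 : i ≤ 1 + k * L := (Nat.pow_le_pow_iff_right (by norm_num)).1 h4
    nlinarith
  have hgood := hχ k
  unfold Bad at hgood
  push Not at hgood
  have hg := hgood hKk hqk i hi4 hi3
  have hW1 := hg.1 H hi1 hi2
  have hW2 := hg.2 H hi1 hi2
  have hs := sandwich q a ha χ hP0.le hPX hXP hPP2 hH1 hW1 hW2
  refine hs.trans ?_
  have hky2 : 1 / (k : ℝ) ≤ 2 * X ^ (-(1 / (L : ℝ))) := by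
    rw [Real.rpow_neg hX0.le, ← hy, ← div_eq_mul_inv, div_le_div_iff₀ hk0 hy0]
    linarith
  have hHX : 0 ≤ H * X := by positivity
  have t1 : 5 * (1 / (k : ℝ) * 2 ^ i * (k : ℝ) ^ L) ≤ 5 * (H * X * (1 / (k : ℝ))) := by
    have : (2 : ℝ) ^ i * (k : ℝ) ^ L ≤ H * X := mul_le_mul hi1 hPX hP0.le (by linarith)
    have h0 : (0 : ℝ) ≤ 1 / (k : ℝ) := by positivity
    calc 5 * (1 / (k : ℝ) * 2 ^ i * (k : ℝ) ^ L) = 5 * ((2 ^ i * (k : ℝ) ^ L) * (1 / (k : ℝ))) := by ring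
      _ ≤ 5 * (H * X * (1 / (k : ℝ))) := by
          refine mul_le_mul_of_nonneg_left (mul_le_mul_of_nonneg_right this h0) (by norm_num)
  have t2 : 6 * H * (((k : ℝ) + 1) ^ L - (k : ℝ) ^ L) ≤ 6 * 2 ^ L * (H * X * (1 / (k : ℝ))) := by
    have h1 : ((k : ℝ) + 1) ^ L - (k : ℝ) ^ L ≤ 2 ^ L * X * (1 / (k : ℝ)) := by
      refine hconv.trans ?_
      rw [mul_one_div]
      refine div_le_div_of_nonneg_right ?_ hk0.le
      exact mul_le_mul_of_nonneg_left hPX (by positivity)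
    calc 6 * H * (((k : ℝ) + 1) ^ L - (k : ℝ) ^ L) ≤ 6 * H * (2 ^ L * X * (1 / (k : ℝ))) :=
          mul_le_mul_of_nonneg_left h1 (by positivity)
      _ = _ := by ring
  have t3 : H * X * (1 / (k : ℝ)) ≤ H * X * (2 * X ^ (-(1 / (L : ℝ)))) := mul_le_mul_of_nonneg_left hky2 hHX
  have t4 : (0 : ℝ) ≤ 2 ^ L := by positivity
  calc 5 * (1 / (k : ℝ) * 2 ^ i * (k : ℝ) ^ L) + 6 * H * (((k : ℝ) + 1) ^ L - (k : ℝ) ^ L)
      ≤ 5 * (H * X * (1 / (k : ℝ))) + 6 * 2 ^ L * (H * X * (1 / (k : ℝ))) := add_le_add t1 t2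
    _ = (5 + 6 * 2 ^ L) * (H * X * (1 / (k : ℝ))) := by ring
    _ ≤ (5 + 6 * 2 ^ L) * (H * X * (2 * X ^ (-(1 / (L : ℝ))))) := mul_le_mul_of_nonneg_left t3 (by positivity)
    _ = _ := by ring

end Pool.Agent.U529.CV
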