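import Pool.Agent.U529.CV.Uni

/-! All the lengths between `H₀` and `2 H₀`. -/

set_option autoImplicit false

namespace Pool.Agent.U529.CV

open Finset Filter Topology

open Classical in
/-- a countable union bound -/
theorem iUnion_card {ι : Type*} [Fintype ι] (P : ℕ → ι → Prop) (c : ℕ → ℝ) (S : ℝ)
    (h : ∀ i, ((univ.filter (fun x => P i x)).card : ℝ) ≤ c i) (hS : ∀ L, ∑ i ∈ range L, c i ≤ S) :
    ((univ.filter (fun x => ∃ i, P i x)).card : ℝ) ≤ S := by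
  have h1 : ∀ x : ι, ∃ i, (∃ i, P i x) → P i x := by
    intro x
    by_cases h : ∃ i, P i x
    · obtain ⟨i, hi⟩ := h
      exact ⟨i, fun _ => hi⟩
    · exact ⟨0, fun h' => absurd h' h⟩
  choose k hk using h1
  set L := univ.sup k + 1 with hL
  have hsub : univ.filter (fun x => ∃ i, P i x) ⊆ (range L).biUnion (fun i => univ.filter (fun x => P i x)) := by
    intro x hx
    rw [mem_filter] at hx
    rw [mem_biUnion]
    refine ⟨k x, ?_, ?_⟩
    · rw [mem_range, hL]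
      have := le_sup (f := k) (mem_univ x)
      omega
    · rw [mem_filter]
      exact ⟨mem_univ _, hk x hx.2⟩
  have h2 := (card_le_card hsub).trans card_biUnion_le
  have h3 : ((univ.filter (fun x => ∃ i, P i x)).card : ℝ) ≤
      ∑ i ∈ range L, ((univ.filter (fun x => P i x)).card : ℝ) := by exact_mod_cast h2
  exact h3.trans ((sum_le_sum fun i _ => h i).trans (hS L))

open Classical in
theorem block (q : ℕ) [hq : Fact q.Prime] (a : ℕ → ℂ) (ha : ∀ n, ‖a n‖ ≤ 1) {Y A B H₀ η : ℝ} (hY : 1 ≤ Y)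
    (hAB : A ≤ B) (hH : 1 ≤ H₀) (hBY : B + 2 * H₀ ≤ 5 * Y) (hYq : 36 * Y ^ 2 < q) (hη : 0 < η) :
    ((univ.filter (fun χ : DirichletCharacter ℂ q => ∃ H : ℝ, H₀ ≤ H ∧ H < 2 * H₀ ∧
      5 * (η * H₀ * Y) < |W q a A B χ H|)).card : ℝ) ≤
      ((q - 1 : ℕ) : ℝ) * (312 * (H₀ * (1 + Real.log H₀) ^ 2) / (η ^ 2 * Y)) := by
  have hX0 : 0 < Y := by linarith
  have hH0 : 0 < H₀ := by linarith
  set N := ⌈5 * Y⌉₊ with hN
  have hN1' : 5 * Y ≤ N := Nat.le_ceil _
  have hN1 : B + 2 * H₀ ≤ N := hBY.trans hN1'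
  have hN2 : (N : ℝ) ≤ 6 * Y := by
    have := (Nat.ceil_lt_add_one (by linarith : 0 ≤ 5 * Y)).le
    linarith
  have hN0 : (0 : ℝ) ≤ N := Nat.cast_nonneg _
  have hNN : N * N < q := by
    have : ((N * N : ℕ) : ℝ) < q := by push_cast; nlinarith
    exact_mod_cast this
  have hNq : N < q := lt_of_le_of_lt (Nat.le_mul_self N) hNN
  set D := ⌊2 * H₀⌋₊ with hD
  have hD1 : (D : ℝ) ≤ 2 * H₀ := Nat.floor_le (by linarith)
  have hDpos : 1 ≤ D := by
    rw [hD, Nat.one_le_floor_iff]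
    linarith
  have hlog0 : 0 ≤ Real.log H₀ := Real.log_nonneg hH
  have hG : G D ≤ 2 * (1 + Real.log H₀) := by
    have h1 := G_le D
    have h2 : Real.log D ≤ Real.log (2 * H₀) := Real.log_le_log (by exact_mod_cast hDpos) hD1
    rw [Real.log_mul (by norm_num) hH0.ne'] at h2
    have h3 := Real.log_two_lt_d9
    linarith
  set K : ℝ := 2 * D * N * G D ^ 2 with hK
  have hK0 : 0 ≤ K := by positivity
  have hK1 : K ≤ 96 * (H₀ * Y * (1 + Real.log H₀) ^ 2) := by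
    have h1 : G D ^ 2 ≤ (2 * (1 + Real.log H₀)) ^ 2 := pow_le_pow_left₀ (G_nonneg D) hG 2
    have h2 : (D : ℝ) * N ≤ (2 * H₀) * (6 * Y) := mul_le_mul hD1 hN2 hN0 (by linarith)
    calc K = 2 * ((D * N) * G D ^ 2) := by rw [hK]; ring
      _ ≤ 2 * (((2 * H₀) * (6 * Y)) * (2 * (1 + Real.log H₀)) ^ 2) := by
          refine mul_le_mul_of_nonneg_left ?_ (by norm_num)
          exact mul_le_mul h2 h1 (by positivity) (by positivity)
      _ = _ := by ring
  have hq1 : (0 : ℝ) ≤ ((q - 1 : ℕ) : ℝ) := Nat.cast_nonneg _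
  set T : ℝ := ((q - 1 : ℕ) : ℝ) * (K / (Y ^ 2 * η ^ 2)) with hT
  have hT0 : 0 ≤ T := by positivity
  -- the base point
  have hB0 : ((univ.filter (fun χ : DirichletCharacter ℂ q => η * H₀ * Y < |W q a A B χ H₀|)).card : ℝ) ≤ T := by
    have h1 := base q a ha hAB hH0 (by linarith : B + H₀ ≤ N) (Nat.floor_mono (by linarith) : ⌊H₀⌋₊ ≤ D) hNN
    have h2 := markov (fun χ : DirichletCharacter ℂ q => |W q a A B χ H₀|) (fun _ => abs_nonneg _) (η * H₀ * Y) _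
      (by positivity) h1
    refine h2.trans (le_of_eq ?_)
    rw [hT, ← hK]
    field_simp
  -- the links
  have hBi : ∀ i : ℕ, ((univ.filter (fun χ : DirichletCharacter ℂ q => ∃ j : ℕ, j < 2 ^ i ∧
      (η * H₀ * Y) * (3 / 4) ^ i < |W q a A B χ (H₀ * (1 + (2 * (j : ℝ) + 1) / 2 ^ (i + 1))) -
        W q a A B χ (H₀ * (1 + (j : ℝ) / 2 ^ i))|)).card : ℝ) ≤ T * (1 / 4) * (8 / 9) ^ i := by
    intro i
    have hp : (0 : ℝ) < 2 ^ i := by positivity
    have hj : ∀ j ∈ range (2 ^ i), ((univ.filter (fun χ : DirichletCharacter ℂ q =>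
        (η * H₀ * Y) * (3 / 4) ^ i < |W q a A B χ (H₀ * (1 + (2 * (j : ℝ) + 1) / 2 ^ (i + 1))) -
        W q a A B χ (H₀ * (1 + (j : ℝ) / 2 ^ i))|)).card : ℝ) ≤ T * (1 / 4) * (4 / 9) ^ i := by
      intro j hj
      rw [mem_range] at hj
      have hjr : (j : ℝ) + 1 ≤ 2 ^ i := by exact_mod_cast hj
      have e1 : H₀ * (1 + (2 * (j : ℝ) + 1) / 2 ^ (i + 1)) - H₀ * (1 + (j : ℝ) / 2 ^ i) = H₀ / 2 ^ (i + 1) := by
        rw [pow_succ]
        field_simp
        ring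
      have e2 : H₀ * (1 + (2 * (j : ℝ) + 1) / 2 ^ (i + 1)) ≤ 2 * H₀ := by
        have : (2 * (j : ℝ) + 1) / 2 ^ (i + 1) ≤ 1 := by
          rw [div_le_one (by positivity), pow_succ]
          linarith
        nlinarith
      have e3 : H₀ * (1 + (j : ℝ) / 2 ^ i) ≤ H₀ * (1 + (2 * (j : ℝ) + 1) / 2 ^ (i + 1)) := by
        have : 0 < H₀ / 2 ^ (i + 1) := by positivity
        linarith
      have e4 : 0 < H₀ * (1 + (j : ℝ) / 2 ^ i) := by positivity
      have h1 := incr q a ha hAB e4 e3 (by linarith : B + H₀ * (1 + (2 * (j : ℝ) + 1) / 2 ^ (i + 1)) ≤ N) (Nat.floor_mono e2 : _ ≤ D) hNN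
      have h2 := markov (fun χ : DirichletCharacter ℂ q =>
        |W q a A B χ (H₀ * (1 + (2 * (j : ℝ) + 1) / 2 ^ (i + 1))) - W q a A B χ (H₀ * (1 + (j : ℝ) / 2 ^ i))|)
        (fun _ => abs_nonneg _) ((η * H₀ * Y) * (3 / 4) ^ i) _ (by positivity) h1
      refine h2.trans (le_of_eq ?_)
      rw [e1, ← hK, hT]
      have e5 : (4 / 9 : ℝ) ^ i = 1 / ((2 ^ i) ^ 2 * ((3 / 4 : ℝ) ^ i) ^ 2) := by
        rw [← pow_mul, ← pow_mul, mul_comm i 2, pow_mul, pow_mul, ← mul_pow, one_div, ← inv_pow]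
        congr 1
        norm_num
      rw [e5, pow_succ]
      have h34 : (0 : ℝ) < (3 / 4) ^ i := by positivity
      field_simp
      ring
    have hsub : univ.filter (fun χ : DirichletCharacter ℂ q => ∃ j : ℕ, j < 2 ^ i ∧
      (η * H₀ * Y) * (3 / 4) ^ i < |W q a A B χ (H₀ * (1 + (2 * (j : ℝ) + 1) / 2 ^ (i + 1))) -
        W q a A B χ (H₀ * (1 + (j : ℝ) / 2 ^ i))|) ⊆ (range (2 ^ i)).biUnion (fun j =>
        univ.filter (fun χ : DirichletCharacter ℂ q =>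
        (η * H₀ * Y) * (3 / 4) ^ i < |W q a A B χ (H₀ * (1 + (2 * (j : ℝ) + 1) / 2 ^ (i + 1))) -
        W q a A B χ (H₀ * (1 + (j : ℝ) / 2 ^ i))|)) := by
      intro χ hχ
      rw [mem_filter] at hχ
      obtain ⟨_, j, hj1, hj2⟩ := hχ
      rw [mem_biUnion]
      exact ⟨j, mem_range.2 hj1, mem_filter.2 ⟨mem_univ _, hj2⟩⟩
    have h2 := (card_le_card hsub).trans card_biUnion_le
    calc _ ≤ ∑ j ∈ range (2 ^ i), ((univ.filter (fun χ : DirichletCharacter ℂ q =>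
        (η * H₀ * Y) * (3 / 4) ^ i < |W q a A B χ (H₀ * (1 + (2 * (j : ℝ) + 1) / 2 ^ (i + 1))) -
        W q a A B χ (H₀ * (1 + (j : ℝ) / 2 ^ i))|)).card : ℝ) := by exact_mod_cast h2
      _ ≤ ∑ j ∈ range (2 ^ i), T * (1 / 4) * (4 / 9) ^ i := sum_le_sum hj
      _ = T * (1 / 4) * (8 / 9) ^ i := by
          rw [sum_const, card_range, nsmul_eq_mul]
          push_cast
          have : (8 / 9 : ℝ) ^ i = 2 ^ i * (4 / 9) ^ i := by rw [← mul_pow]; norm_num
          rw [this]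
          ring
  have hBall : ((univ.filter (fun χ : DirichletCharacter ℂ q => ∃ i : ℕ, ∃ j : ℕ, j < 2 ^ i ∧
      (η * H₀ * Y) * (3 / 4) ^ i < |W q a A B χ (H₀ * (1 + (2 * (j : ℝ) + 1) / 2 ^ (i + 1))) -
        W q a A B χ (H₀ * (1 + (j : ℝ) / 2 ^ i))|)).card : ℝ) ≤ T * (9 / 4) := by
    refine le_trans (le_of_eq ?_) (iUnion_card (fun (i : ℕ) (χ : DirichletCharacter ℂ q) => ∃ j : ℕ, j < 2 ^ i ∧
      (η * H₀ * Y) * (3 / 4) ^ i < |W q a A B χ (H₀ * (1 + (2 * (j : ℝ) + 1) / 2 ^ (i + 1))) -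
        W q a A B χ (H₀ * (1 + (j : ℝ) / 2 ^ i))|) (fun i => T * (1 / 4) * (8 / 9) ^ i) (T * (9 / 4))
        (fun i => le_trans (le_of_eq (by congr)) (hBi i)) (by
      intro L
      rw [← mul_sum]
      have : ∑ i ∈ range L, (8 / 9 : ℝ) ^ i ≤ 9 := by
        rw [geom_sum_eq (by norm_num)]
        have : (0 : ℝ) ≤ (8 / 9) ^ L := by positivity
        rw [div_le_iff_of_neg (by norm_num)]
        linarith
      calc T * (1 / 4) * ∑ i ∈ range L, (8 / 9 : ℝ) ^ i ≤ T * (1 / 4) * 9 :=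
            mul_le_mul_of_nonneg_left this (by positivity)
        _ = _ := by ring))
    congr
  have hsub : univ.filter (fun χ : DirichletCharacter ℂ q => ∃ H : ℝ, H₀ ≤ H ∧ H < 2 * H₀ ∧
      5 * (η * H₀ * Y) < |W q a A B χ H|) ⊆
      univ.filter (fun χ : DirichletCharacter ℂ q => η * H₀ * Y < |W q a A B χ H₀|) ∪
      univ.filter (fun χ : DirichletCharacter ℂ q => ∃ i : ℕ, ∃ j : ℕ, j < 2 ^ i ∧
      (η * H₀ * Y) * (3 / 4) ^ i < |W q a A B χ (H₀ * (1 + (2 * (j : ℝ) + 1) / 2 ^ (i + 1))) -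
        W q a A B χ (H₀ * (1 + (j : ℝ) / 2 ^ i))|) := by
    intro χ hχ
    rw [mem_filter] at hχ
    obtain ⟨_, H, h1, h2, h3⟩ := hχ
    rw [mem_union, mem_filter, mem_filter]
    by_contra hcon
    push Not at hcon
    obtain ⟨c1, c2⟩ := hcon
    have c1' := c1 (mem_univ _)
    have c2' := c2 (mem_univ _)
    have h4 := chain (fun H => W q a A B χ H) H₀ ((N : ℝ) ^ 2) (η * H₀ * Y) hH0 (by positivity) (by
      intro x y hx hxy hy
      have h5 := lip q a ha hAB (hH0.trans_le hx) hxy (by linarith : B + y ≤ N) hNq χ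
      refine h5.trans (mul_le_mul_of_nonneg_right ?_ (by linarith))
      have h6 : (pr N ⌊y⌋₊).card ≤ N ^ 2 := by
        refine (card_filter_le _ _).trans ?_
        rw [card_product, Nat.card_Icc, Nat.add_sub_cancel, sq]
      exact_mod_cast h6) (fun i j hj => c2' i j hj) H h1 h2
    have h5 := abs_sub_abs_le_abs_sub (W q a A B χ H) (W q a A B χ H₀)
    linarith
  have hfin := (card_le_card hsub).trans (card_union_le _ _)
  have hfin' : ((univ.filter (fun χ : DirichletCharacter ℂ q => ∃ H : ℝ, H₀ ≤ H ∧ H < 2 * H₀ ∧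
      5 * (η * H₀ * Y) < |W q a A B χ H|)).card : ℝ) ≤ T + T * (9 / 4) := by
    refine le_trans ?_ (add_le_add hB0 hBall)
    exact_mod_cast hfin
  refine hfin'.trans ?_
  have : T + T * (9 / 4) = ((q - 1 : ℕ) : ℝ) * (13 / 4 * (K / (Y ^ 2 * η ^ 2))) := by rw [hT]; ring
  rw [this]
  refine mul_le_mul_of_nonneg_left ?_ hq1
  rw [← mul_div_assoc, div_le_div_iff₀ (by positivity) (by positivity)]
  have h7 : 13 / 4 * K * (η ^ 2 * Y) ≤ 13 / 4 * (96 * (H₀ * Y * (1 + Real.log H₀) ^ 2)) * (η ^ 2 * Y) := by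
    refine mul_le_mul_of_nonneg_right ?_ (by positivity)
    linarith
  refine h7.trans (le_of_eq ?_)
  ring

end Pool.Agent.U529.CV
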