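import Pool.Agent.U529.CV.Cnt

/-! The second moment over the characters of a sum over pairs. -/

set_option autoImplicit false

namespace Pool.Agent.U529.CV

open Finset

theorem orth (q : ℕ) [hq : Fact q.Prime] (a b : ℕ) (ha : ¬ q ∣ a) :
    ∑ χ : DirichletCharacter ℂ q, (starRingEnd ℂ) (χ (a : ZMod q)) * χ (b : ZMod q) =
      if (a : ZMod q) = (b : ZMod q) then ((q - 1 : ℕ) : ℂ) else 0 := by
  have hu : IsUnit (a : ZMod q) := by
    rw [isUnit_iff_ne_zero]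
    intro h
    exact ha ((ZMod.natCast_eq_zero_iff a q).1 h)
  have h := DirichletCharacter.sum_char_inv_mul_char_eq (R := ℂ) hu (b : ZMod q)
  rw [Nat.totient_prime hq.out] at h
  rw [← h]
  refine sum_congr rfl fun χ _ => ?_
  congr 1
  rw [← MulChar.inv_apply', ← MulChar.star_apply']
  rfl

/-- the second moment over the characters -/
theorem second (q : ℕ) [hq : Fact q.Prime] (N D : ℕ) (hN : N * N < q) (c : ℕ × ℕ → ℂ) (B : ℝ)
    (hc : ∀ z ∈ pr N D, ‖c z‖ ≤ B) :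
    ∑ χ : DirichletCharacter ℂ q, ‖∑ z ∈ pr N D, c z * (χ (z.1 : ZMod q) *
      (starRingEnd ℂ) (χ (z.2 : ZMod q)))‖ ^ 2 ≤ ((q - 1 : ℕ) : ℝ) * B ^ 2 * (2 * D * N * G D ^ 2) := by
  classical
  have hlt : ∀ z ∈ pr N D, ∀ w ∈ pr N D, z.1 * w.2 < q ∧ z.2 * w.1 < q ∧ 0 < z.2 * w.1 := by
    intro z hz w hw
    obtain ⟨a1, a2, a3, a4, _⟩ := mem_pr.1 hz
    obtain ⟨b1, b2, b3, b4, _⟩ := mem_pr.1 hw
    refine ⟨lt_of_le_of_lt (Nat.mul_le_mul a2 b4) hN, lt_of_le_of_lt (Nat.mul_le_mul a4 b2) hN, ?_⟩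
    exact Nat.mul_pos (by omega) (by omega)
  have hexp : ((∑ χ : DirichletCharacter ℂ q, ‖∑ z ∈ pr N D, c z * (χ (z.1 : ZMod q) *
      (starRingEnd ℂ) (χ (z.2 : ZMod q)))‖ ^ 2 : ℝ) : ℂ) =
      ∑ z ∈ pr N D, ∑ w ∈ pr N D, c z * (starRingEnd ℂ) (c w) *
        (if z.2 * w.1 = z.1 * w.2 then ((q - 1 : ℕ) : ℂ) else 0) := by
    push_cast
    have e1 : ∀ χ : DirichletCharacter ℂ q, ((‖∑ z ∈ pr N D, c z * (χ (z.1 : ZMod q) *
        (starRingEnd ℂ) (χ (z.2 : ZMod q)))‖ : ℂ)) ^ 2 = ∑ z ∈ pr N D, ∑ w ∈ pr N D,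
        c z * (starRingEnd ℂ) (c w) * ((starRingEnd ℂ) (χ ((z.2 * w.1 : ℕ) : ZMod q)) *
          χ ((z.1 * w.2 : ℕ) : ZMod q)) := by
      intro χ
      rw [← Complex.mul_conj', map_sum, sum_mul_sum]
      refine sum_congr rfl fun z _ => sum_congr rfl fun w _ => ?_
      rw [map_mul, map_mul, Complex.conj_conj, Nat.cast_mul, Nat.cast_mul, map_mul χ, map_mul χ, map_mul]
      ring
    rw [sum_congr rfl (fun χ _ => e1 χ), sum_comm]
    refine sum_congr rfl fun z hz => ?_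
    rw [sum_comm]
    refine sum_congr rfl fun w hw => ?_
    rw [← mul_sum]
    congr 1
    obtain ⟨l1, l2, l3⟩ := hlt z hz w hw
    rw [orth q (z.2 * w.1) (z.1 * w.2) (fun h => by
      have := Nat.le_of_dvd l3 h
      omega)]
    by_cases h : z.2 * w.1 = z.1 * w.2
    · rw [if_pos h, if_pos (by rw [h])]
    · rw [if_neg h, if_neg]
      intro h'
      apply h
      rw [ZMod.natCast_eq_natCast_iff'] at h'
      rwa [Nat.mod_eq_of_lt l2, Nat.mod_eq_of_lt l1] at h'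
  have hnn : 0 ≤ ∑ χ : DirichletCharacter ℂ q, ‖∑ z ∈ pr N D, c z * (χ (z.1 : ZMod q) *
      (starRingEnd ℂ) (χ (z.2 : ZMod q)))‖ ^ 2 := sum_nonneg fun χ _ => by positivity
  have hB : ∀ z ∈ pr N D, ∀ w ∈ pr N D, ‖c z * (starRingEnd ℂ) (c w) *
      (if z.2 * w.1 = z.1 * w.2 then ((q - 1 : ℕ) : ℂ) else 0)‖ ≤
      (if z.1 * w.2 = z.2 * w.1 then ((q - 1 : ℕ) : ℝ) * B ^ 2 else 0) := by
    intro z hz w hw
    rw [norm_mul, norm_mul, RCLike.norm_conj]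
    by_cases h : z.2 * w.1 = z.1 * w.2
    · rw [if_pos h, if_pos h.symm, Complex.norm_natCast]
      have h1 := mul_le_mul (hc z hz) (hc w hw) (norm_nonneg _) ((norm_nonneg _).trans (hc z hz))
      calc ‖c z‖ * ‖c w‖ * ((q - 1 : ℕ) : ℝ) ≤ (B * B) * ((q - 1 : ℕ) : ℝ) :=
            mul_le_mul_of_nonneg_right h1 (Nat.cast_nonneg _)
        _ = _ := by ring
    · rw [if_neg h, if_neg (fun h' => h h'.symm)]
      simp
  have hmain := quad N D
  calc ∑ χ : DirichletCharacter ℂ q, ‖∑ z ∈ pr N D, c z * (χ (z.1 : ZMod q) *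
      (starRingEnd ℂ) (χ (z.2 : ZMod q)))‖ ^ 2
      = ‖((∑ χ : DirichletCharacter ℂ q, ‖∑ z ∈ pr N D, c z * (χ (z.1 : ZMod q) *
      (starRingEnd ℂ) (χ (z.2 : ZMod q)))‖ ^ 2 : ℝ) : ℂ)‖ := by
        rw [Complex.norm_real, Real.norm_of_nonneg hnn]
    _ ≤ ∑ z ∈ pr N D, ∑ w ∈ pr N D, (if z.1 * w.2 = z.2 * w.1 then ((q - 1 : ℕ) : ℝ) * B ^ 2 else 0) := by
        rw [hexp]
        refine (norm_sum_le _ _).trans (sum_le_sum fun z hz => ?_)
        exact (norm_sum_le _ _).trans (sum_le_sum fun w hw => hB z hz w hw)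
    _ = ((q - 1 : ℕ) : ℝ) * B ^ 2 * ∑ z ∈ pr N D,
        (((pr N D).filter (fun w => z.1 * w.2 = z.2 * w.1)).card : ℝ) := by
        rw [mul_sum]
        refine sum_congr rfl fun z _ => ?_
        rw [← sum_filter, sum_const, nsmul_eq_mul]
        ring
    _ ≤ _ := mul_le_mul_of_nonneg_left hmain (by positivity)

open Classical in
/-- Markov's inequality -/
theorem markov {ι : Type*} [Fintype ι] (g : ι → ℝ) (hg : ∀ i, 0 ≤ g i) (t S : ℝ) (ht : 0 < t)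
    (hS : ∑ i, g i ^ 2 ≤ S) : ((univ.filter (fun i => t < g i)).card : ℝ) ≤ S / t ^ 2 := by
  rw [le_div_iff₀ (by positivity)]
  refine le_trans ?_ hS
  calc ((univ.filter (fun i => t < g i)).card : ℝ) * t ^ 2 = ∑ i ∈ univ.filter (fun i => t < g i), t ^ 2 := by
        rw [sum_const, nsmul_eq_mul]
    _ ≤ ∑ i ∈ univ.filter (fun i => t < g i), g i ^ 2 := by
        refine sum_le_sum fun i hi => ?_
        rw [mem_filter] at hi
        exact pow_le_pow_left₀ ht.le hi.2.le 2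
    _ ≤ ∑ i, g i ^ 2 := sum_le_sum_of_subset_of_nonneg (filter_subset _ _) fun i _ _ => by positivity

end Pool.Agent.U529.CV
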