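import Mathlib

/-! Pairs of near integers with the same ratio. -/

set_option autoImplicit false

namespace Pool.Agent.U529.CV

open Finset

/-- the pairs of different integers up to `N` at distance at most `D` -/
def pr (N D : ℕ) : Finset (ℕ × ℕ) :=
  (Icc 1 N ×ˢ Icc 1 N).filter (fun z => z.1 ≠ z.2 ∧ z.1 ≤ z.2 + D ∧ z.2 ≤ z.1 + D)

/-- the distance -/
def ds (a b : ℕ) : ℕ := (a - b) + (b - a)

theorem mem_pr {N D : ℕ} {z : ℕ × ℕ} : z ∈ pr N D ↔ 1 ≤ z.1 ∧ z.1 ≤ N ∧ 1 ≤ z.2 ∧ z.2 ≤ N ∧ z.1 ≠ z.2 ∧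
    z.1 ≤ z.2 + D ∧ z.2 ≤ z.1 + D := by
  unfold pr
  rw [mem_filter, mem_product, mem_Icc, mem_Icc]
  tauto

theorem ds_mul (g a b : ℕ) : ds (g * a) (g * b) = g * ds a b := by
  unfold ds
  rw [← Nat.mul_sub, ← Nat.mul_sub, ← Nat.mul_add]

/-- the pairs proportional to a given one -/
theorem fiber (N D : ℕ) (z : ℕ × ℕ) (hz : z ∈ pr N D) :
    ((pr N D).filter (fun w => z.1 * w.2 = z.2 * w.1)).card * ds z.1 z.2 ≤ D * Nat.gcd z.1 z.2 := by
  obtain ⟨h1, h2, h3, h4, h5, h6, h7⟩ := mem_pr.1 hz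
  obtain ⟨n, m⟩ := z
  dsimp only at *
  set g := Nat.gcd n m with hg
  have hg0 : 0 < g := Nat.gcd_pos_of_pos_left _ (by omega)
  obtain ⟨a, b, hcop, hn, hm⟩ := Nat.exists_coprime n m
  rw [← hg] at hn hm
  have ha0 : 0 < a := by
    rcases Nat.eq_zero_or_pos a with h | h
    · rw [h] at hn; omega
    · exact h
  have hb0 : 0 < b := by
    rcases Nat.eq_zero_or_pos b with h | h
    · rw [h] at hm; omega
    · exact h
  have hds : ds n m = g * ds a b := by
    rw [hn, hm, mul_comm a g, mul_comm b g, ds_mul]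
  have hab : a ≠ b := by
    intro h
    apply h5
    rw [hn, hm, h]
  have hd0 : 0 < ds a b := by
    unfold ds
    omega
  have hcard : ((pr N D).filter (fun w => n * w.2 = m * w.1)).card ≤ D / ds a b := by
    have : (Icc 1 (D / ds a b)).card = D / ds a b := by
      rw [Nat.card_Icc, Nat.add_sub_cancel]
    rw [← this]
    have key : ∀ w ∈ (pr N D).filter (fun w => n * w.2 = m * w.1), ∃ h : ℕ, 1 ≤ h ∧ w = (a * h, b * h) ∧
        h ≤ D / ds a b := by
      intro w hw
      rw [mem_filter] at hw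
      obtain ⟨k1, k2, k3, k4, k5, k6, k7⟩ := mem_pr.1 hw.1
      have e1 : a * w.2 = b * w.1 := by
        have e2 : g * (a * w.2) = g * (b * w.1) := by
          calc g * (a * w.2) = (a * g) * w.2 := by ring
            _ = n * w.2 := by rw [← hn]
            _ = m * w.1 := hw.2
            _ = (b * g) * w.1 := by rw [← hm]
            _ = g * (b * w.1) := by ring
        exact Nat.eq_of_mul_eq_mul_left hg0 e2
      have e3 : a ∣ w.1 := by
        have : a ∣ b * w.1 := ⟨w.2, e1.symm⟩
        exact hcop.dvd_of_dvd_mul_left this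
      obtain ⟨h, hh⟩ := e3
      have e4 : w.2 = b * h := by
        rw [hh] at e1
        have : a * w.2 = a * (b * h) := by rw [e1]; ring
        exact Nat.eq_of_mul_eq_mul_left ha0 this
      refine ⟨h, ?_, Prod.ext hh e4, ?_⟩
      · rcases Nat.eq_zero_or_pos h with h0 | h0
        · rw [h0] at hh; omega
        · exact h0
      · rw [Nat.le_div_iff_mul_le hd0]
        have e5 : ds w.1 w.2 = h * ds a b := by
          rw [hh, e4, mul_comm a h, mul_comm b h, ds_mul]
        rw [← e5]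
        unfold ds
        omega
    refine card_le_card_of_injOn (fun w => w.1 / a) ?_ ?_
    · intro w hw
      obtain ⟨h, k1, k2, k3⟩ := key w (by simpa using hw)
      rw [k2]
      simp only [coe_Icc, Set.mem_Icc]
      rw [Nat.mul_div_cancel_left _ ha0]
      exact ⟨k1, k3⟩
    · intro w hw w' hw' hww
      obtain ⟨h, k1, k2, k3⟩ := key w (by simpa using hw)
      obtain ⟨h', k1', k2', k3'⟩ := key w' (by simpa using hw')
      rw [k2, k2'] at hww
      simp only [Nat.mul_div_cancel_left _ ha0] at hww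
      rw [k2, k2', hww]
  calc ((pr N D).filter (fun w => n * w.2 = m * w.1)).card * ds n m
      ≤ (D / ds a b) * (g * ds a b) := by rw [hds]; exact Nat.mul_le_mul_right _ hcard
    _ = (D / ds a b * ds a b) * g := by ring
    _ ≤ D * g := Nat.mul_le_mul_right _ (Nat.div_mul_le_self _ _)

/-- the harmonic sum -/
noncomputable def G (D : ℕ) : ℝ := ∑ e ∈ Icc 1 D, 1 / (e : ℝ)

theorem G_nonneg (D : ℕ) : 0 ≤ G D := sum_nonneg fun e _ => by positivity

theorem G_le (D : ℕ) : G D ≤ 1 + Real.log D := by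
  have h := harmonic_le_one_add_log D
  have h2 : G D = (harmonic D : ℝ) := by
    unfold G
    rw [harmonic_eq_sum_Icc]
    push_cast
    exact sum_congr rfl fun e _ => by rw [one_div]
  rw [h2]
  exact h

theorem sum_gcd (N D : ℕ) : ∑ n ∈ Icc 1 N, ∑ d ∈ Icc 1 D, (Nat.gcd n d : ℝ) / d ≤ N * G D ^ 2 := by
  have h1 : ∀ n ∈ Icc 1 N, ∀ d ∈ Icc 1 D, (Nat.gcd n d : ℝ) / d ≤
      ∑ e ∈ Icc 1 D, (if e ∣ n then (1 : ℝ) else 0) * (if e ∣ d then (e : ℝ) / d else 0) := by
    intro n hn d hd
    rw [mem_Icc] at hn hd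
    have hg : Nat.gcd n d ∈ Icc 1 D := by
      rw [mem_Icc]
      have h1 : 0 < Nat.gcd n d := Nat.gcd_pos_of_pos_left _ (by omega)
      have h2 : Nat.gcd n d ≤ d := Nat.gcd_le_right _ (by omega)
      omega
    refine le_trans (le_of_eq ?_) (single_le_sum (f := fun e : ℕ => (if e ∣ n then (1 : ℝ) else 0) *
      (if e ∣ d then (e : ℝ) / d else 0)) (fun e _ => ?_) hg)
    · simp only [Nat.gcd_dvd_left, Nat.gcd_dvd_right, if_true, one_mul]
    · refine mul_nonneg ?_ ?_
      · split_ifs <;> norm_num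
      · split_ifs
        · positivity
        · exact le_rfl
  calc ∑ n ∈ Icc 1 N, ∑ d ∈ Icc 1 D, (Nat.gcd n d : ℝ) / d
      ≤ ∑ n ∈ Icc 1 N, ∑ d ∈ Icc 1 D, ∑ e ∈ Icc 1 D,
        (if e ∣ n then (1 : ℝ) else 0) * (if e ∣ d then (e : ℝ) / d else 0) :=
        sum_le_sum fun n hn => sum_le_sum fun d hd => h1 n hn d hd
    _ = ∑ e ∈ Icc 1 D, (∑ n ∈ Icc 1 N, (if e ∣ n then (1 : ℝ) else 0)) *
        (∑ d ∈ Icc 1 D, (if e ∣ d then (e : ℝ) / d else 0)) := by
        have e1 : ∀ n ∈ Icc 1 N, ∑ d ∈ Icc 1 D, ∑ e ∈ Icc 1 D,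
            (if e ∣ n then (1 : ℝ) else 0) * (if e ∣ d then (e : ℝ) / d else 0) =
            ∑ e ∈ Icc 1 D, (if e ∣ n then (1 : ℝ) else 0) * (∑ d ∈ Icc 1 D, (if e ∣ d then (e : ℝ) / d else 0)) := by
          intro n _
          rw [sum_comm]
          exact sum_congr rfl fun e _ => (mul_sum _ _ _).symm
        rw [sum_congr rfl e1, sum_comm]
        exact sum_congr rfl fun e _ => (sum_mul _ _ _).symm
    _ ≤ ∑ e ∈ Icc 1 D, ((N : ℝ) / e) * (G D) := by
        refine sum_le_sum fun e he => ?_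
        rw [mem_Icc] at he
        have he0 : (0 : ℝ) < e := by exact_mod_cast he.1
        have hA : ∑ n ∈ Icc 1 N, (if e ∣ n then (1 : ℝ) else 0) ≤ (N : ℝ) / e := by
          rw [← sum_filter, sum_const, nsmul_eq_mul, mul_one]
          have : ((Icc 1 N).filter (fun n => e ∣ n)).card = N / e := by
            have h := Nat.Ioc_filter_dvd_card_eq_div N e
            have h2 : Icc 1 N = Ioc 0 N := by ext x; simp [mem_Icc, mem_Ioc]; omega
            rw [h2, h]
          rw [this]
          exact Nat.cast_div_le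
        have hB : ∑ d ∈ Icc 1 D, (if e ∣ d then (e : ℝ) / d else 0) ≤ G D := by
          rw [← sum_filter]
          have hinj : Set.InjOn (fun d : ℕ => d / e) ((Icc 1 D).filter (fun d => e ∣ d) : Finset ℕ) := by
            intro x hx y hy hxy
            rw [mem_coe, mem_filter] at hx hy
            obtain ⟨u, hu⟩ := hx.2
            obtain ⟨w, hw⟩ := hy.2
            dsimp only at hxy
            rw [hu, hw, Nat.mul_div_cancel_left _ he.1, Nat.mul_div_cancel_left _ he.1] at hxy
            rw [hu, hw, hxy]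
          have hval : ∀ d ∈ (Icc 1 D).filter (fun d => e ∣ d), (e : ℝ) / d = 1 / ((d / e : ℕ) : ℝ) := by
            intro d hd
            rw [mem_filter] at hd
            obtain ⟨u, hu⟩ := hd.2
            rw [hu, Nat.mul_div_cancel_left _ he.1]
            push_cast
            rw [div_mul_eq_div_div, div_self he0.ne']
          rw [sum_congr rfl hval, ← sum_image (f := fun k : ℕ => 1 / (k : ℝ)) hinj]
          unfold G
          refine sum_le_sum_of_subset_of_nonneg ?_ (fun k _ _ => by positivity)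
          intro k hk
          rw [mem_image] at hk
          obtain ⟨d, hd, rfl⟩ := hk
          rw [mem_filter, mem_Icc] at hd
          obtain ⟨u, hu⟩ := hd.2
          rw [hu, Nat.mul_div_cancel_left _ he.1, mem_Icc]
          constructor
          · rcases Nat.eq_zero_or_pos u with h | h
            · rw [h] at hu; omega
            · exact h
          · have : u ≤ e * u := Nat.le_mul_of_pos_left _ he.1
            omega
        refine mul_le_mul hA hB ?_ (by positivity)
        exact sum_nonneg fun d _ => by split_ifs <;> positivity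
    _ = N * G D ^ 2 := by
        rw [← sum_mul]
        have : ∑ e ∈ Icc 1 D, (N : ℝ) / e = N * G D := by
          unfold G
          rw [mul_sum]
          exact sum_congr rfl fun e _ => by rw [mul_one_div]
        rw [this]
        ring

/-- the number of the pairs of proportional pairs -/
theorem quad (N D : ℕ) : ∑ z ∈ pr N D, (((pr N D).filter (fun w => z.1 * w.2 = z.2 * w.1)).card : ℝ) ≤
    2 * D * N * G D ^ 2 := by
  have h1 : ∀ z ∈ pr N D, (((pr N D).filter (fun w => z.1 * w.2 = z.2 * w.1)).card : ℝ) ≤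
      D * ((Nat.gcd z.1 z.2 : ℝ) / ds z.1 z.2) := by
    intro z hz
    have h2 := fiber N D z hz
    have h3 : 0 < ds z.1 z.2 := by
      have := (mem_pr.1 hz).2.2.2.2.1
      unfold ds
      omega
    have h3r : (0 : ℝ) < ds z.1 z.2 := by exact_mod_cast h3
    rw [← mul_div_assoc, le_div_iff₀ h3r]
    exact_mod_cast h2
  refine (sum_le_sum h1).trans ?_
  rw [← mul_sum]
  set S := Icc 1 N ×ˢ Icc 1 D with hS
  have hsub : pr N D ⊆ S.image (fun y => (y.1, y.1 + y.2)) ∪ S.image (fun y => (y.1 + y.2, y.1)) := by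
    intro z hz
    obtain ⟨k1, k2, k3, k4, k5, k6, k7⟩ := mem_pr.1 hz
    rw [mem_union, mem_image, mem_image]
    rcases lt_or_gt_of_ne k5 with h | h
    · left
      refine ⟨(z.1, z.2 - z.1), ?_, ?_⟩
      · rw [hS, mem_product, mem_Icc, mem_Icc]
        dsimp only
        omega
      · exact Prod.ext rfl (by dsimp only; omega)
    · right
      refine ⟨(z.2, z.1 - z.2), ?_, ?_⟩
      · rw [hS, mem_product, mem_Icc, mem_Icc]
        dsimp only
        omega
      · exact Prod.ext (by dsimp only; omega) rfl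
  have hF : ∀ z : ℕ × ℕ, 0 ≤ (Nat.gcd z.1 z.2 : ℝ) / ds z.1 z.2 := fun z => by positivity
  have hI1 : ∑ z ∈ S.image (fun y => (y.1, y.1 + y.2)), (Nat.gcd z.1 z.2 : ℝ) / ds z.1 z.2 ≤ N * G D ^ 2 := by
    rw [sum_image]
    · refine le_trans (le_of_eq ?_) (sum_gcd N D)
      rw [hS, sum_product]
      refine sum_congr rfl fun n _ => sum_congr rfl fun d _ => ?_
      dsimp only
      have e1 : Nat.gcd n (n + d) = Nat.gcd n d := by simp
      have e2 : ds n (n + d) = d := by unfold ds; omega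
      rw [e1, e2]
    · intro x _ y _ h
      simp only [Prod.mk.injEq] at h
      exact Prod.ext h.1 (by omega)
  have hI2 : ∑ z ∈ S.image (fun y => (y.1 + y.2, y.1)), (Nat.gcd z.1 z.2 : ℝ) / ds z.1 z.2 ≤ N * G D ^ 2 := by
    rw [sum_image]
    · refine le_trans (le_of_eq ?_) (sum_gcd N D)
      rw [hS, sum_product]
      refine sum_congr rfl fun n _ => sum_congr rfl fun d _ => ?_
      dsimp only
      have e1 : Nat.gcd (n + d) n = Nat.gcd n d := by rw [Nat.gcd_comm]; simp
      have e2 : ds (n + d) n = d := by unfold ds; omega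
      rw [e1, e2]
    · intro x _ y _ h
      simp only [Prod.mk.injEq] at h
      exact Prod.ext h.2 (by omega)
  have h5 : ∑ z ∈ pr N D, (Nat.gcd z.1 z.2 : ℝ) / ds z.1 z.2 ≤ N * G D ^ 2 + N * G D ^ 2 := by
    refine (sum_le_sum_of_subset_of_nonneg hsub (fun z _ _ => hF z)).trans ?_
    refine le_trans ?_ (add_le_add hI1 hI2)
    rw [← sum_union_inter]
    have : 0 ≤ ∑ z ∈ S.image (fun y => (y.1, y.1 + y.2)) ∩ S.image (fun y => (y.1 + y.2, y.1)),
      (Nat.gcd z.1 z.2 : ℝ) / ds z.1 z.2 := sum_nonneg fun z _ => hF z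
    linarith
  have hD : (0 : ℝ) ≤ D := Nat.cast_nonneg _
  calc (D : ℝ) * ∑ z ∈ pr N D, (Nat.gcd z.1 z.2 : ℝ) / ds z.1 z.2 ≤ D * (N * G D ^ 2 + N * G D ^ 2) :=
        mul_le_mul_of_nonneg_left h5 hD
    _ = _ := by ring

end Pool.Agent.U529.CV
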