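import Pool.Agent.U529.CV.Lam
import Pool.Agent.Cov.PNT

/-! The diagonal for the von Mangoldt function. -/

set_option autoImplicit false

namespace Pool.Agent.U529.CV

open Finset Filter Topology MeasureTheory
open ArithmeticFunction (vonMangoldt)

theorem lam_sq (n : ℕ) : ‖lam n‖ ^ 2 = vonMangoldt n ^ 2 := by
  unfold lam
  rw [Complex.norm_real, Real.norm_eq_abs, sq_abs]

theorem RR_upper {X H : ℝ} (hX : 1 ≤ X) (hH : 1 ≤ H) :
    RR lam 1 X H ≤ H * (Real.log (X + H / 2) * Chebyshev.psi (X + H / 2)) := by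
  have hH0 : 0 < H := by linarith
  rw [RR_eq lam hX hH0 (Nat.le_ceil (X + H))]
  set N := ⌈X + H⌉₊
  set y := X + H / 2 with hy
  have hy1 : 1 ≤ y := by linarith
  have hsub : Ioc 0 ⌊y⌋₊ ⊆ Icc 1 N := by
    intro n hn
    rw [mem_Ioc] at hn
    rw [mem_Icc]
    refine ⟨hn.1, hn.2.trans ?_⟩
    exact (Nat.floor_le_floor (by linarith : y ≤ X + H)).trans (Nat.floor_le_ceil _)
  have h0 : ∀ n ∈ Icc 1 N, n ∉ Ioc 0 ⌊y⌋₊ → wg 1 X H n n * ‖lam n‖ ^ 2 = 0 := by
    intro n hn hn2
    have h1 : y < n := by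
      rw [mem_Icc] at hn
      rw [mem_Ioc, not_and_or] at hn2
      rcases hn2 with h | h
      · omega
      · push Not at h
        exact (Nat.floor_lt (by linarith)).1 h
    have h2 : wg 1 X H n n = 0 := by
      unfold wg
      refine max_eq_left ?_
      rw [min_self, max_self]
      have a1 : min X ((n : ℝ) + H / 2) ≤ X := min_le_left _ _
      have a2 : (n : ℝ) - H / 2 ≤ max 1 ((n : ℝ) - H / 2) := le_max_right _ _
      linarith
    rw [h2, zero_mul]
  rw [← sum_subset hsub h0, Chebyshev.psi, mul_sum, mul_sum]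
  refine sum_le_sum fun n hn => ?_
  rw [mem_Ioc] at hn
  have hn0 : (0 : ℝ) < n := by exact_mod_cast hn.1
  have hny : (n : ℝ) ≤ y := (Nat.le_floor_iff (by linarith)).1 hn.2
  rw [lam_sq]
  have hL0 : 0 ≤ vonMangoldt n := ArithmeticFunction.vonMangoldt_nonneg
  have hL1 : vonMangoldt n ≤ Real.log y :=
    ArithmeticFunction.vonMangoldt_le_log.trans (Real.log_le_log hn0 hny)
  have h3 : wg 1 X H n n ≤ H := wg_le hH0.le n n
  refine mul_le_mul h3 ?_ (by positivity) hH0.le
  rw [sq]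
  exact mul_le_mul_of_nonneg_right hL1 hL0

theorem RR_lower {X H y z : ℝ} (hX : 1 ≤ X) (hH : 1 ≤ H) (hz : 1 + H / 2 ≤ z) (hzy : z ≤ y)
    (hy : y ≤ X - H / 2) :
    H * (Real.log z * (Chebyshev.theta y - Chebyshev.theta z)) ≤ RR lam 1 X H := by
  have hH0 : 0 < H := by linarith
  rw [RR_eq lam hX hH0 (Nat.le_ceil (X + H))]
  set N := ⌈X + H⌉₊
  have hfl : ⌊z⌋₊ ≤ ⌊y⌋₊ := Nat.floor_le_floor hzy
  have e1 : Chebyshev.theta y - Chebyshev.theta z =
      ∑ p ∈ (Ioc ⌊z⌋₊ ⌊y⌋₊).filter (fun p => p.Prime), Real.log p := by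
    unfold Chebyshev.theta
    rw [sum_filter, sum_filter, sum_filter, sub_eq_iff_eq_add, add_comm,
      sum_Ioc_consecutive _ (Nat.zero_le _) hfl]
  have hsub : (Ioc ⌊z⌋₊ ⌊y⌋₊).filter (fun p => p.Prime) ⊆ Icc 1 N := by
    intro n hn
    rw [mem_filter, mem_Ioc] at hn
    rw [mem_Icc]
    refine ⟨by omega, ?_⟩
    exact hn.1.2.trans ((Nat.floor_le_floor (by linarith : y ≤ X + H)).trans (Nat.floor_le_ceil (X + H)))
  rw [e1]
  calc H * (Real.log z * ∑ p ∈ (Ioc ⌊z⌋₊ ⌊y⌋₊).filter (fun p => p.Prime), Real.log p)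
      = ∑ p ∈ (Ioc ⌊z⌋₊ ⌊y⌋₊).filter (fun p => p.Prime), H * (Real.log z * Real.log p) := by
        rw [mul_sum, mul_sum]
    _ ≤ ∑ p ∈ (Ioc ⌊z⌋₊ ⌊y⌋₊).filter (fun p => p.Prime), wg 1 X H p p * ‖lam p‖ ^ 2 := by
        refine sum_le_sum fun p hp => ?_
        rw [mem_filter, mem_Ioc] at hp
        have h1 : z < p := (Nat.floor_lt (by linarith)).1 hp.1.1
        have h2 : (p : ℝ) ≤ y := (Nat.le_floor_iff (by linarith)).1 hp.1.2
        have h3 : wg 1 X H p p = H := by
          unfold wg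
          rw [min_self, max_self, min_eq_right (by linarith), max_eq_right (by linarith : (1 : ℝ) ≤ (p : ℝ) - H / 2),
            max_eq_right (by linarith)]
          ring
        rw [h3, lam_sq, ArithmeticFunction.vonMangoldt_apply_prime hp.2]
        refine mul_le_mul_of_nonneg_left ?_ hH0.le
        rw [sq]
        exact mul_le_mul_of_nonneg_right (Real.log_le_log (by linarith) h1.le) (Real.log_nonneg (by linarith))
    _ ≤ ∑ n ∈ Icc 1 N, wg 1 X H n n * ‖lam n‖ ^ 2 :=
        sum_le_sum_of_subset_of_nonneg hsub fun n _ _ => mul_nonneg (wg_nonneg _ _ _ _ _) (by positivity)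

/-- the diagonal -/
theorem RR_lam (ε : ℝ) (hε : 0 < ε) (δ : ℝ) (hδ : 0 < δ) : ∃ X₁ : ℝ, ∀ X H : ℝ, X₁ ≤ X → 1 ≤ H →
    H ≤ X ^ (1 - ε) → |RR lam 1 X H - H * X * Real.log X| ≤ δ * (H * X * Real.log X) := by
  set η : ℝ := min (δ / 7) (1 / 8) with hη
  have hη0 : 0 < η := lt_min (by linarith) (by norm_num)
  have hη1 : η ≤ 1 / 8 := min_le_right _ _
  have hη2 : 7 * η ≤ δ := by
    have := min_le_left (δ / 7) (1 / 8 : ℝ)
    linarith
  have e1 : ∀ᶠ t : ℝ in atTop, Chebyshev.psi t ≤ (1 + η) * t := by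
    have h := Pool.Agent.Cov.PNT.psi_div_tendsto.eventually (gt_mem_nhds (by linarith : (1 : ℝ) < 1 + η))
    filter_upwards [h, eventually_gt_atTop 0] with t ht ht0
    rw [div_lt_iff₀ ht0] at ht
    exact ht.le
  have e2 : ∀ᶠ t : ℝ in atTop, Chebyshev.theta t ≤ (1 + η) * t := by
    have h := Pool.Agent.Cov.PNT.theta_div_tendsto.eventually (gt_mem_nhds (by linarith : (1 : ℝ) < 1 + η))
    filter_upwards [h, eventually_gt_atTop 0] with t ht ht0
    rw [div_lt_iff₀ ht0] at ht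
    exact ht.le
  have e3 : ∀ᶠ t : ℝ in atTop, (1 - η) * t ≤ Chebyshev.theta t := by
    have h := Pool.Agent.Cov.PNT.theta_div_tendsto.eventually (lt_mem_nhds (by linarith : 1 - η < (1 : ℝ)))
    filter_upwards [h, eventually_gt_atTop 0] with t ht ht0
    rw [lt_div_iff₀ ht0] at ht
    exact ht.le
  have e4 : ∀ᶠ X : ℝ in atTop, X ^ (1 - ε) ≤ η * X := by
    have h := (tendsto_rpow_neg_atTop hε).eventually (gt_mem_nhds hη0)
    filter_upwards [h, eventually_gt_atTop 0] with X hX hX0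
    rw [show 1 - ε = -ε + 1 by ring, Real.rpow_add hX0, Real.rpow_one]
    exact mul_le_mul_of_nonneg_right hX.le hX0.le
  have t1 : Tendsto (fun X : ℝ => (1 - η) * X) atTop atTop := tendsto_id.const_mul_atTop (by linarith)
  have t2 : Tendsto (fun X : ℝ => η * X) atTop atTop := tendsto_id.const_mul_atTop hη0
  have e5 : ∀ᶠ X : ℝ in atTop, ∀ t, X ≤ t → Chebyshev.psi t ≤ (1 + η) * t := eventually_forall_ge_atTop.2 e1
  have e6 : ∀ᶠ X : ℝ in atTop, max 1 (-Real.log η / η) ≤ Real.log X :=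
    Real.tendsto_log_atTop.eventually_ge_atTop _
  have e7 : ∀ᶠ X : ℝ in atTop, max 1 (2 / η) ≤ X := eventually_ge_atTop _
  obtain ⟨X₁, h⟩ := eventually_atTop.1 (e4.and ((t1.eventually e3).and ((t2.eventually e2).and (e5.and (e6.and e7)))))
  refine ⟨X₁, fun X H hX hH1 hH2 => ?_⟩
  obtain ⟨h4, h3, h2, h5, h6, h7⟩ := h X hX
  have hX1 : 1 ≤ X := (le_max_left _ _).trans h7
  have hX0 : 0 < X := by linarith
  have hX2 : 2 / η ≤ X := (le_max_right _ _).trans h7
  rw [div_le_iff₀ hη0] at hX2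
  have hl1 : 1 ≤ Real.log X := (le_max_left _ _).trans h6
  have hl2 : -Real.log η / η ≤ Real.log X := (le_max_right _ _).trans h6
  rw [div_le_iff₀ hη0] at hl2
  have hH3 : H ≤ η * X := hH2.trans h4
  have hH0 : 0 < H := by linarith
  have hup := RR_upper hX1 hH1
  have hlo := RR_lower (X := X) (H := H) (y := (1 - η) * X) (z := η * X) hX1 hH1 (by nlinarith) (by nlinarith)
    (by nlinarith)
  have hB : 0 < H * X * Real.log X := by positivity
  -- the upper bound
  have u1 : Real.log (X + H / 2) ≤ (1 + η) * Real.log X := by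
    have a1 : X + H / 2 ≤ X * (1 + η) := by nlinarith
    calc Real.log (X + H / 2) ≤ Real.log (X * (1 + η)) := Real.log_le_log (by linarith) a1
      _ = Real.log X + Real.log (1 + η) := Real.log_mul hX0.ne' (by linarith)
      _ ≤ Real.log X + η := by
          have := Real.log_le_sub_one_of_pos (by linarith : 0 < 1 + η)
          linarith
      _ ≤ _ := by nlinarith
  have u2 : Chebyshev.psi (X + H / 2) ≤ (1 + η) * (X * (1 + η)) := by
    refine (h5 _ (by linarith)).trans ?_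
    exact mul_le_mul_of_nonneg_left (by nlinarith) (by linarith)
  have u3 : H * (Real.log (X + H / 2) * Chebyshev.psi (X + H / 2)) ≤
      H * (((1 + η) * Real.log X) * ((1 + η) * (X * (1 + η)))) := by
    refine mul_le_mul_of_nonneg_left ?_ hH0.le
    exact mul_le_mul u1 u2 (Chebyshev.psi_nonneg _) (by positivity)
  have u4 : H * (((1 + η) * Real.log X) * ((1 + η) * (X * (1 + η)))) = (1 + η) ^ 3 * (H * X * Real.log X) := by ring
  have u5 : (1 + η) ^ 3 ≤ 1 + 7 * η := by nlinarith [sq_nonneg η, mul_pos hη0 hη0]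
  -- the lower bound
  have v1 : (1 - η) * Real.log X ≤ Real.log (η * X) := by
    rw [Real.log_mul hη0.ne' hX0.ne']
    linarith
  have v2 : (1 - 3 * η) * X ≤ Chebyshev.theta ((1 - η) * X) - Chebyshev.theta (η * X) := by
    nlinarith
  have v3 : H * (((1 - η) * Real.log X) * ((1 - 3 * η) * X)) ≤
      H * (Real.log (η * X) * (Chebyshev.theta ((1 - η) * X) - Chebyshev.theta (η * X))) := by
    refine mul_le_mul_of_nonneg_left ?_ hH0.le
    refine mul_le_mul v1 v2 (mul_nonneg (by linarith) hX0.le) ?_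
    exact le_trans (mul_nonneg (by linarith) (by linarith)) v1
  have v4 : H * (((1 - η) * Real.log X) * ((1 - 3 * η) * X)) = ((1 - η) * (1 - 3 * η)) * (H * X * Real.log X) := by
    ring
  have v5 : 1 - 4 * η ≤ (1 - η) * (1 - 3 * η) := by nlinarith [mul_pos hη0 hη0]
  have w1 : (1 + η) ^ 3 * (H * X * Real.log X) ≤ (1 + 7 * η) * (H * X * Real.log X) :=
    mul_le_mul_of_nonneg_right u5 hB.le
  have w2 : (1 - 4 * η) * (H * X * Real.log X) ≤ ((1 - η) * (1 - 3 * η)) * (H * X * Real.log X) :=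
    mul_le_mul_of_nonneg_right v5 hB.le
  have w3 : 7 * η * (H * X * Real.log X) ≤ δ * (H * X * Real.log X) := mul_le_mul_of_nonneg_right hη2 hB.le
  have w4 : 0 < η * (H * X * Real.log X) := by positivity
  rw [abs_le]
  constructor
  · linarith
  · linarith

end Pool.Agent.U529.CV
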