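import Pool.Agent.U529.CV.OneTop

/-! The von Mangoldt function. -/

set_option autoImplicit false

namespace Pool.Agent.U529.CV

open Finset Filter Topology MeasureTheory

/-- the von Mangoldt function -/
noncomputable def lam (n : ℕ) : ℂ := ((ArithmeticFunction.vonMangoldt n : ℝ) : ℂ)

/-- the normalising factor -/
noncomputable def Rk (L k : ℕ) : ℝ := Real.log (4 * (k : ℝ) ^ L + 4)

/-- the bounded sequences -/
noncomputable def al (L k n : ℕ) : ℂ := if n ≤ 4 * k ^ L then lam n / (Rk L k : ℂ) else 0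

theorem Rk_pos (L k : ℕ) : 0 < Rk L k := by
  unfold Rk
  refine Real.log_pos ?_
  have : (0 : ℝ) ≤ (k : ℝ) ^ L := by positivity
  linarith

theorem al_le (L k n : ℕ) : ‖al L k n‖ ≤ 1 := by
  unfold al
  split_ifs with h
  · unfold lam
    rw [norm_div, Complex.norm_real, Complex.norm_real, Real.norm_eq_abs, Real.norm_eq_abs,
      abs_of_pos (Rk_pos L k), abs_of_nonneg ArithmeticFunction.vonMangoldt_nonneg, div_le_one (Rk_pos L k)]
    refine ArithmeticFunction.vonMangoldt_le_log.trans ?_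
    rcases Nat.eq_zero_or_pos n with h0 | h0
    · rw [h0, Nat.cast_zero, Real.log_zero]; exact (Rk_pos L k).le
    · unfold Rk
      refine Real.log_le_log (by exact_mod_cast h0) ?_
      have : (n : ℝ) ≤ 4 * (k : ℝ) ^ L := by exact_mod_cast h
      linarith
  · simp

theorem W_scale (q L k : ℕ) (χ : DirichletCharacter ℂ q) {X H : ℝ} (hX : 1 ≤ X)
    (hk : X ≤ 2 * (k : ℝ) ^ L) (hHX : H ≤ X) :
    W q lam 1 X χ H = Rk L k ^ 2 * W q (al L k) 1 X χ H := by
  have hR := Rk_pos L k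
  have key : ∀ x ∈ Set.uIcc 1 X, ∀ n ∈ (range (⌈x + H⌉₊ + 1)).filter
      (fun n : ℕ => 1 ≤ n ∧ |(n : ℝ) - x| < H / 2), lam n = (Rk L k : ℂ) * al L k n := by
    intro x hx n hn
    rw [Set.uIcc_of_le hX] at hx
    rw [mem_filter] at hn
    obtain ⟨_, h1, h2⟩ := hn
    rw [abs_lt] at h2
    have h3 : (n : ℝ) ≤ 4 * (k : ℝ) ^ L := by linarith [hx.2]
    have h4 : n ≤ 4 * k ^ L := by exact_mod_cast h3
    unfold al
    rw [if_pos h4]
    have hRc : (Rk L k : ℂ) ≠ 0 := by exact_mod_cast hR.ne'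
    field_simp
  unfold W UU RR
  rw [mul_sub, ← intervalIntegral.integral_const_mul, ← intervalIntegral.integral_const_mul]
  congr 1
  · refine intervalIntegral.integral_congr fun x hx => ?_
    have e : MM (fun n => lam n * χ (n : ZMod q)) x H =
        (Rk L k : ℂ) * MM (fun n => al L k n * χ (n : ZMod q)) x H := by
      unfold MM
      rw [mul_sum]
      refine sum_congr rfl fun n hn => ?_
      beta_reduce
      rw [key x hx n hn, mul_assoc]
    rw [e, norm_mul, mul_pow, Complex.norm_real, Real.norm_eq_abs, sq_abs]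
  · refine intervalIntegral.integral_congr fun x hx => ?_
    simp only [SS]
    rw [mul_sum]
    refine sum_congr rfl fun n hn => ?_
    rw [key x hx n hn, norm_mul, mul_pow, Complex.norm_real, Real.norm_eq_abs, sq_abs]

theorem Rk_le (L k : ℕ) (hL : 1 ≤ L) {X : ℝ} (hX : 1 ≤ X) (hk : (k : ℝ) ^ L ≤ X) :
    Rk L k ^ 2 ≤ (32 * L) ^ 2 * X ^ (1 / (2 * (L : ℝ))) := by
  have hLr : (1 : ℝ) ≤ L := by exact_mod_cast hL
  have hL0 : (0 : ℝ) < L := by linarith
  have hX0 : 0 < X := by linarith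
  set δ : ℝ := 1 / (4 * (L : ℝ)) with hδ
  have hδ0 : 0 < δ := by positivity
  have hδ1 : δ ≤ 1 := by rw [hδ, div_le_one (by positivity)]; linarith
  have hk0 : (0 : ℝ) ≤ (k : ℝ) ^ L := by positivity
  have h1 : Rk L k ≤ 32 * L * X ^ δ := by
    calc Rk L k ≤ Real.log (8 * X) := Real.log_le_log (by positivity) (by linarith)
      _ ≤ (8 * X) ^ δ / δ := Real.log_le_rpow_div (by positivity) hδ0
      _ = 8 ^ δ * X ^ δ * (4 * L) := by
          rw [Real.mul_rpow (by norm_num) hX0.le, hδ]; field_simp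
      _ ≤ 8 * X ^ δ * (4 * L) := by
          have h8 : (8 : ℝ) ^ δ ≤ 8 := by
            calc (8 : ℝ) ^ δ ≤ 8 ^ (1 : ℝ) := Real.rpow_le_rpow_of_exponent_le (by norm_num) hδ1
              _ = 8 := Real.rpow_one 8
          have hXp := Real.rpow_pos_of_pos hX0 δ
          gcongr
      _ = 32 * L * X ^ δ := by ring
  calc Rk L k ^ 2 ≤ (32 * L * X ^ δ) ^ 2 := pow_le_pow_left₀ (Rk_pos L k).le h1 2
    _ = (32 * L) ^ 2 * (X ^ δ * X ^ δ) := by ring
    _ = (32 * L) ^ 2 * X ^ (1 / (2 * (L : ℝ))) := by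
        rw [← Real.rpow_add hX0]
        congr 2
        rw [hδ]
        field_simp
        norm_num

open Classical in
theorem main_lam (ε : ℝ) (hε0 : 0 < ε) : ∃ c C : ℝ, 0 < c ∧ 0 < C ∧
    ∀ (q : ℕ) [Fact q.Prime], ∀ X₀ : ℝ, 1 ≤ X₀ →
      ((univ.filter (fun χ : DirichletCharacter ℂ q => ∃ X H : ℝ, X₀ ≤ X ∧ 36 * X ^ 2 < q ∧ 1 ≤ H ∧
        H ≤ X ^ (1 - ε) ∧ C * (H * X * X ^ (-c)) < |W q lam 1 X χ H|)).card : ℝ) ≤
        C * X₀ ^ (-c) * ((q - 1 : ℕ) : ℝ) := by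
  obtain ⟨L, C, hL, hC, h⟩ := main1 ε hε0
  have hLr : (16 : ℝ) ≤ L := by exact_mod_cast hL
  have hL0 : (0 : ℝ) < L := by linarith
  have hC32 : C ≤ (32 * L) ^ 2 * C := by
    have : (1 : ℝ) ≤ (32 * L) ^ 2 := one_le_pow₀ (by linarith)
    nlinarith
  refine ⟨1 / (2 * L), (32 * L) ^ 2 * C, by positivity, by positivity, fun q hq X₀ hX₀ => ?_⟩
  have hq1 : (0 : ℝ) ≤ ((q - 1 : ℕ) : ℝ) := Nat.cast_nonneg _
  have hX00 : 0 < X₀ := by linarith
  have h1 := h q (al L) (al_le L) X₀ hX₀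
  refine le_trans ?_ (h1.trans ?_)
  · refine Nat.cast_le.2 (card_le_card ?_)
    intro χ hχ
    rw [mem_filter] at hχ ⊢
    refine ⟨mem_univ _, ?_⟩
    obtain ⟨_, X, H, h1, h2, h3, h4, h5⟩ := hχ
    refine ⟨X, H, h1, h2, h3, h4, fun k hk1 hk2 => ?_⟩
    have hX1 : 1 ≤ X := by linarith
    have hX0 : 0 < X := by linarith
    have hHX : H ≤ X := by
      refine h4.trans ?_
      calc X ^ (1 - ε) ≤ X ^ (1 : ℝ) := Real.rpow_le_rpow_of_exponent_le hX1 (by linarith)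
        _ = X := Real.rpow_one X
    rw [W_scale q L k χ hX1 hk2 hHX, abs_mul, abs_of_nonneg (sq_nonneg _)] at h5
    have hR := Rk_le L k (by omega) hX1 hk1
    by_contra hcon
    push Not at hcon
    have h6 : Rk L k ^ 2 * |W q (al L k) 1 X χ H| ≤
        ((32 * L) ^ 2 * X ^ (1 / (2 * (L : ℝ)))) * (C * (H * X * X ^ (-(1 / (L : ℝ))))) :=
      mul_le_mul hR hcon (abs_nonneg _) (by positivity)
    have e : X ^ (1 / (2 * (L : ℝ))) * X ^ (-(1 / (L : ℝ))) = X ^ (-(1 / (2 * (L : ℝ)))) := by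
      rw [← Real.rpow_add hX0]
      congr 1
      field_simp
      norm_num
    have e2 : ((32 * L) ^ 2 * X ^ (1 / (2 * (L : ℝ)))) * (C * (H * X * X ^ (-(1 / (L : ℝ))))) =
        (32 * L) ^ 2 * C * (H * X * X ^ (-(1 / (2 * (L : ℝ))))) := by
      rw [← e]; ring
    linarith
  · refine mul_le_mul_of_nonneg_right ?_ hq1
    have h2 : X₀ ^ (-(1 / (L : ℝ))) ≤ X₀ ^ (-(1 / (2 * (L : ℝ)))) := by
      refine Real.rpow_le_rpow_of_exponent_le hX₀ (neg_le_neg ?_)
      exact one_div_le_one_div_of_le hL0 (by linarith)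
    exact mul_le_mul hC32 h2 (by positivity) (by positivity)

end Pool.Agent.U529.CV
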