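import Pool.Agent.U529.CV.One

/-! The main theorem for the mean over `[1, X]` and a family of sequences. -/

set_option autoImplicit false

namespace Pool.Agent.U529.CV

open Finset Filter Topology MeasureTheory

open Classical in
theorem main1 (ε : ℝ) (hε0 : 0 < ε) : ∃ (L : ℕ) (C : ℝ), 16 ≤ L ∧ 0 < C ∧
    ∀ (q : ℕ) [Fact q.Prime] (a : ℕ → ℕ → ℂ), (∀ k n, ‖a k n‖ ≤ 1) → ∀ X₀ : ℝ, 1 ≤ X₀ →
      ((univ.filter (fun χ : DirichletCharacter ℂ q => ∃ X H : ℝ, X₀ ≤ X ∧ 36 * X ^ 2 < q ∧ 1 ≤ H ∧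
        H ≤ X ^ (1 - ε) ∧ ∀ k : ℕ, (k : ℝ) ^ L ≤ X → X ≤ 2 * (k : ℝ) ^ L →
          C * (H * X * X ^ (-(1 / (L : ℝ)))) < |W q (a k) 1 X χ H|)).card : ℝ) ≤
        C * X₀ ^ (-(1 / (L : ℝ))) * ((q - 1 : ℕ) : ℝ) := by
  set L := ⌈16 / ε⌉₊ + 16 with hL
  have hL16 : 16 ≤ L := by omega
  have hL1 : 1 ≤ L := by omega
  have hLr : (16 : ℝ) ≤ L := by exact_mod_cast hL16
  have hL0 : (0 : ℝ) < L := by linarith
  have hεL : 16 ≤ ε * L := by
    have h1 : 16 / ε ≤ L := by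
      rw [hL]
      push_cast
      have := Nat.le_ceil (16 / ε)
      linarith
    rw [div_le_iff₀ hε0] at h1
    linarith
  have hCS : 0 ≤ CS L := by unfold CS; positivity
  have hC : (0 : ℝ) < 10 + 12 * 2 ^ L + 4 * CS L := by positivity
  refine ⟨L, 10 + 12 * 2 ^ L + 4 * CS L, hL16, hC, ?_⟩
  intro q hq a ha X₀ hX₀
  have hq1 : (0 : ℝ) ≤ ((q - 1 : ℕ) : ℝ) := Nat.cast_nonneg _
  have hX0 : 0 < X₀ := by linarith
  set y : ℝ := X₀ ^ (1 / (L : ℝ)) with hy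
  have hy1 : 1 ≤ y := Real.one_le_rpow hX₀ (by positivity)
  have hy0 : 0 < y := by linarith
  have hyL : y ^ L = X₀ := by
    rw [hy, ← Real.rpow_natCast, ← Real.rpow_mul hX0.le, one_div, inv_mul_cancel₀ hL0.ne', Real.rpow_one]
  have hyi : X₀ ^ (-(1 / (L : ℝ))) = 1 / y := by rw [Real.rpow_neg hX0.le, ← hy, one_div]
  rw [hyi]
  by_cases hsmall : ⌊y⌋₊ < 2 ^ L
  · -- the trivial bound
    have h1 : y ≤ 2 ^ L := by
      have h2 := Nat.lt_floor_add_one y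
      have h3 : ((⌊y⌋₊ + 1 : ℕ) : ℝ) ≤ ((2 ^ L : ℕ) : ℝ) := by exact_mod_cast hsmall
      push_cast at h3
      linarith
    have h2 : (univ.filter (fun χ : DirichletCharacter ℂ q => ∃ X H : ℝ, X₀ ≤ X ∧ 36 * X ^ 2 < q ∧ 1 ≤ H ∧
        H ≤ X ^ (1 - ε) ∧ ∀ k : ℕ, (k : ℝ) ^ L ≤ X → X ≤ 2 * (k : ℝ) ^ L →
          (10 + 12 * 2 ^ L + 4 * CS L) * (H * X * X ^ (-(1 / (L : ℝ)))) <
          |W q (a k) 1 X χ H|)).card ≤ q - 1 := by
      refine (card_le_univ _).trans (le_of_eq ?_)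
      rw [← Nat.card_eq_fintype_card, DirichletCharacter.card_eq_totient_of_hasEnoughRootsOfUnity ℂ q,
        Nat.totient_prime hq.out]
    have h3 : (1 : ℝ) ≤ (10 + 12 * 2 ^ L + 4 * CS L) * (1 / y) := by
      rw [mul_one_div, one_le_div hy0]
      have : (0 : ℝ) ≤ 2 ^ L := by positivity
      linarith
    calc _ ≤ ((q - 1 : ℕ) : ℝ) := by exact_mod_cast h2
      _ = 1 * ((q - 1 : ℕ) : ℝ) := (one_mul _).symm
      _ ≤ _ := mul_le_mul_of_nonneg_right h3 hq1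
  · push Not at hsmall
    set K := ⌊y⌋₊ with hK
    have hKy : (K : ℝ) ≤ y := Nat.floor_le hy0.le
    have hyK : y < K + 1 := Nat.lt_floor_add_one y
    have hK1 : 1 ≤ K := le_trans Nat.one_le_two_pow hsmall
    have hKr : (1 : ℝ) ≤ K := by exact_mod_cast hK1
    have hKX : (K : ℝ) ^ L ≤ X₀ := by rw [← hyL]; exact pow_le_pow_left₀ (by linarith) hKy L
    have hb := all_bad1 q a ha L K hsmall hL1
    refine le_trans ?_ (hb.trans ?_)
    · refine Nat.cast_le.2 (card_le_card ?_)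
      intro χ hχ
      rw [mem_filter] at hχ ⊢
      refine ⟨mem_univ _, ?_⟩
      by_contra hcon
      push Not at hcon
      obtain ⟨_, X, H, h1, h2, h3, h4, h5⟩ := hχ
      obtain ⟨k, hk1, hk2, h6⟩ := good1 q a ha L K hsmall hL1 ε hεL χ hcon X H (hKX.trans h1) h2 h3 h4
      have h5' := h5 k hk1 hk2
      have h7 : (10 + 12 * 2 ^ L : ℝ) * (H * X * X ^ (-(1 / (L : ℝ)))) ≤
          (10 + 12 * 2 ^ L + 4 * CS L) * (H * X * X ^ (-(1 / (L : ℝ)))) := by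
        refine mul_le_mul_of_nonneg_right (by linarith) ?_
        have : 0 < X := by linarith
        positivity
      linarith
    · rw [mul_comm]
      refine mul_le_mul_of_nonneg_right ?_ hq1
      rw [mul_one_div, div_le_div_iff₀ (by linarith) hy0]
      have h1 : y ≤ 2 * K := by linarith
      have h2 : 2 * CS L * y ≤ 2 * CS L * (2 * K) := mul_le_mul_of_nonneg_left h1 (by positivity)
      have h3 : (0 : ℝ) ≤ (10 + 12 * 2 ^ L) * K := by positivity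
      nlinarith

end Pool.Agent.U529.CV
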