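import Pool.Agent.U529.CV.Blk

/-! Uniformity in `X`: comparison with the intervals between the points `k ^ L`. -/

set_option autoImplicit false

namespace Pool.Agent.U529.CV

open Finset Filter Topology MeasureTheory

theorem SS_le (f : ℕ → ℂ) (hf : ∀ n, ‖f n‖ ≤ 1) {x H : ℝ} (hx : 0 ≤ x) (hH : 1 ≤ H) : SS f x H ≤ 2 * H := by
  unfold SS
  have h1 : ∀ n ∈ (range (⌈x + H⌉₊ + 1)).filter (fun n : ℕ => 1 ≤ n ∧ |(n : ℝ) - x| < H / 2), ‖f n‖ ^ 2 ≤ 1 :=
    fun n _ => pow_le_one₀ (norm_nonneg _) (hf n)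
  refine (sum_le_sum h1).trans ?_
  rw [sum_const, nsmul_eq_mul, mul_one]
  have hsub : (range (⌈x + H⌉₊ + 1)).filter (fun n : ℕ => 1 ≤ n ∧ |(n : ℝ) - x| < H / 2) ⊆
      Ioc ⌊x - H / 2⌋₊ ⌊x + H / 2⌋₊ := by
    intro n hn
    rw [mem_filter] at hn
    obtain ⟨_, h2, h3⟩ := hn
    rw [abs_lt] at h3
    rw [mem_Ioc]
    constructor
    · rcases le_or_gt 0 (x - H / 2) with h | h
      · have h4 := Nat.floor_le h
        have h5 : ((⌊x - H / 2⌋₊ : ℕ) : ℝ) < n := by linarith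
        exact_mod_cast h5
      · rw [Nat.floor_of_nonpos h.le]
        omega
    · exact Nat.le_floor (by linarith)
  have h2 := card_le_card hsub
  rw [Nat.card_Ioc] at h2
  have h3 : (⌊x + H / 2⌋₊ : ℝ) ≤ x + H / 2 := Nat.floor_le (by linarith)
  have h4 : x - H / 2 < ⌊x - H / 2⌋₊ + 1 := Nat.lt_floor_add_one _
  have h5 : ⌊x - H / 2⌋₊ ≤ ⌊x + H / 2⌋₊ := Nat.floor_mono (by linarith)
  have h6 : ((⌊x + H / 2⌋₊ - ⌊x - H / 2⌋₊ : ℕ) : ℝ) ≤ 2 * H := by
    rw [Nat.cast_sub h5]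
    linarith
  exact le_trans (by exact_mod_cast h2) h6

theorem SS_nonneg (f : ℕ → ℂ) (x H : ℝ) : 0 ≤ SS f x H := sum_nonneg fun n _ => by positivity

theorem RR_le (f : ℕ → ℂ) (hf : ∀ n, ‖f n‖ ≤ 1) {A B H : ℝ} (hA : 0 ≤ A) (hAB : A ≤ B) (hH : 1 ≤ H) :
    0 ≤ RR f A B H ∧ RR f A B H ≤ 2 * H * (B - A) := by
  unfold RR
  constructor
  · exact intervalIntegral.integral_nonneg hAB fun x _ => SS_nonneg f x H
  · have h := intervalIntegral.norm_integral_le_of_norm_le_const (a := A) (b := B) (C := 2 * H)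
      (f := fun x => SS f x H) (by
        intro x hx
        rw [Set.uIoc_of_le hAB] at hx
        rw [Real.norm_eq_abs, abs_of_nonneg (SS_nonneg f x H)]
        exact SS_le f hf (hA.trans hx.1.le) hH)
    rw [Real.norm_eq_abs, abs_of_nonneg (sub_nonneg.2 hAB)] at h
    exact (le_abs_self _).trans h

theorem RR_add (f : ℕ → ℂ) {A B C H : ℝ} (hAB : A ≤ B) (hBC : B ≤ C) (hH : 0 < H) :
    RR f A B H + RR f B C H = RR f A C H :=
  intervalIntegral.integral_add_adjacent_intervals (SS_ii f hAB hH) (SS_ii f hBC hH)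

theorem UU_mono (f : ℕ → ℂ) {A B C D H : ℝ} (h1 : C ≤ A) (h2 : A ≤ B) (h3 : B ≤ D) (hH : 0 < H) :
    UU f A B H ≤ UU f C D H := by
  unfold UU
  refine intervalIntegral.integral_mono_interval h1 h2 h3 ?_ (MM_ii f (h1.trans (h2.trans h3)) hH)
  exact Eventually.of_forall fun x => by positivity

/-- the comparison -/
theorem sandwich (q : ℕ) (a : ℕ → ℂ) (ha : ∀ n, ‖a n‖ ≤ 1) (χ : DirichletCharacter ℂ q) {P P' X H τ : ℝ}
    (hP : 0 ≤ P) (h1 : P ≤ X) (h2 : X ≤ P') (h3 : P' ≤ 2 * P) (hH : 1 ≤ H)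
    (hW1 : |W q a P (2 * P') χ H| ≤ τ) (hW2 : |W q a P' (2 * P) χ H| ≤ τ) :
    |W q a X (2 * X) χ H| ≤ τ + 6 * H * (P' - P) := by
  have hH0 : 0 < H := by linarith
  unfold W at *
  set f : ℕ → ℂ := fun n => a n * χ (n : ZMod q) with hf
  have u1 := UU_mono f (A := X) (B := 2 * X) (C := P) (D := 2 * P') (H := H) h1 (by linarith) (by linarith) hH0
  have u2 := UU_mono f (A := P') (B := 2 * P) (C := X) (D := 2 * X) (H := H) h2 h3 (by linarith) hH0
  have r1 := RR_add a (A := P) (B := X) (C := 2 * P') (H := H) h1 (by linarith) hH0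
  have r2 := RR_add a (A := X) (B := 2 * X) (C := 2 * P') (H := H) (by linarith) (by linarith) hH0
  have r3 := RR_add a (A := X) (B := P') (C := 2 * X) (H := H) h2 (by linarith) hH0
  have r4 := RR_add a (A := P') (B := 2 * P) (C := 2 * X) (H := H) h3 (by linarith) hH0
  have b1 := RR_le a ha (A := P) (B := X) (H := H) hP h1 hH
  have b2 := RR_le a ha (A := 2 * X) (B := 2 * P') (H := H) (by linarith) (by linarith) hH
  have b3 := RR_le a ha (A := X) (B := P') (H := H) (by linarith) h2 hH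
  have b4 := RR_le a ha (A := 2 * P) (B := 2 * X) (H := H) (by linarith) (by linarith) hH
  have w1 := abs_le.1 hW1
  have w2 := abs_le.1 hW2
  have c1 : 2 * H * (X - P) ≤ 2 * H * (P' - P) := mul_le_mul_of_nonneg_left (by linarith) (by linarith)
  have c2 : 2 * H * (2 * P' - 2 * X) ≤ 4 * H * (P' - P) := by nlinarith
  have c3 : 2 * H * (P' - X) ≤ 2 * H * (P' - P) := mul_le_mul_of_nonneg_left (by linarith) (by linarith)
  have c4 : 2 * H * (2 * X - 2 * P) ≤ 4 * H * (P' - P) := by nlinarith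
  rw [abs_le]
  constructor
  · linarith [b3.1, b3.2, b4.1, b4.2, w2.1, w2.2]
  · linarith [b1.1, b1.2, b2.1, b2.2, w1.1, w1.2]

theorem pow_conv (L k : ℕ) (hk : 1 ≤ k) : ((k : ℝ) + 1) ^ L - (k : ℝ) ^ L ≤ 2 ^ L * (k : ℝ) ^ L / k := by
  have hk0 : (0 : ℝ) < k := by exact_mod_cast hk
  have hk1 : (1 : ℝ) ≤ k := by exact_mod_cast hk
  set t : ℝ := 1 / (k : ℝ) with ht
  have ht0 : 0 ≤ t := by positivity
  have ht1 : t ≤ 1 := by rw [ht, div_le_one hk0]; exact hk1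
  have h1 := (convexOn_pow (𝕜 := ℝ) L).2 (Set.mem_Ici.2 (by norm_num : (0 : ℝ) ≤ 1))
    (Set.mem_Ici.2 (by norm_num : (0 : ℝ) ≤ 2)) (sub_nonneg.2 ht1) ht0 (by ring)
  simp only [smul_eq_mul, one_pow, mul_one] at h1
  have e1 : (1 - t + t * 2) = 1 + t := by ring
  rw [e1] at h1
  have e2 : ((k : ℝ) + 1) ^ L = (k : ℝ) ^ L * (1 + t) ^ L := by
    rw [← mul_pow]
    congr 1
    rw [ht]
    field_simp
  rw [e2]
  have h2 : (k : ℝ) ^ L * (1 + t) ^ L ≤ (k : ℝ) ^ L * (1 - t + t * 2 ^ L) :=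
    mul_le_mul_of_nonneg_left h1 (by positivity)
  have e3 : 2 ^ L * (k : ℝ) ^ L / k = (k : ℝ) ^ L * (t * 2 ^ L) := by
    rw [ht]; field_simp
  rw [e3]
  have h3 : 0 ≤ (k : ℝ) ^ L * t := by positivity
  nlinarith

end Pool.Agent.U529.CV
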