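import Pool.Agent.U529.CV.Asm

/-! The main theorem, and the Moebius function. -/

set_option autoImplicit false

namespace Pool.Agent.U529.CV

open Finset Filter Topology MeasureTheory
open Pool.Agent.U585.GC (wt dg dg_bound)

open Classical in
theorem main (ε : ℝ) (hε0 : 0 < ε) : ∃ c C : ℝ, 0 < c ∧ c ≤ 1 / 16 ∧ 0 < C ∧
    ∀ (q : ℕ) [Fact q.Prime] (a : ℕ → ℂ), (∀ n, ‖a n‖ ≤ 1) → ∀ X₀ : ℝ, 1 ≤ X₀ →
      ((univ.filter (fun χ : DirichletCharacter ℂ q => ∃ X H : ℝ, X₀ ≤ X ∧ 36 * X ^ 2 < q ∧ 1 ≤ H ∧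
        H ≤ X ^ (1 - ε) ∧ C * (H * X * X ^ (-c)) < |W q a X (2 * X) χ H|)).card : ℝ) ≤
        C * X₀ ^ (-c) * ((q - 1 : ℕ) : ℝ) := by
  set L := ⌈16 / ε⌉₊ + 16 with hL
  have hL16 : 16 ≤ L := by omega
  have hL1 : 1 ≤ L := by omega
  have hLr : (16 : ℝ) ≤ L := by exact_mod_cast hL16
  have hL0 : (0 : ℝ) < L := by linarith
  have hεL : 16 ≤ ε * L := by
    have h1 : 16 / ε ≤ L := by
      rw [hL]
      push_cast
      have := Nat.le_ceil (16 / ε)
      linarith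
    rw [div_le_iff₀ hε0] at h1
    linarith
  have hCS : 0 ≤ CS L := by unfold CS; positivity
  have hC : (0 : ℝ) < 10 + 12 * 2 ^ L + 4 * CS L := by positivity
  refine ⟨1 / L, 10 + 12 * 2 ^ L + 4 * CS L, by positivity, ?_, hC, ?_⟩
  · exact one_div_le_one_div_of_le (by norm_num) hLr
  intro q hq a ha X₀ hX₀
  have hq1 : (0 : ℝ) ≤ ((q - 1 : ℕ) : ℝ) := Nat.cast_nonneg _
  have hX0 : 0 < X₀ := by linarith
  set y : ℝ := X₀ ^ (1 / (L : ℝ)) with hy
  have hy1 : 1 ≤ y := Real.one_le_rpow hX₀ (by positivity)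
  have hy0 : 0 < y := by linarith
  have hyL : y ^ L = X₀ := by
    rw [hy, ← Real.rpow_natCast, ← Real.rpow_mul hX0.le, one_div, inv_mul_cancel₀ hL0.ne', Real.rpow_one]
  have hyi : X₀ ^ (-(1 / (L : ℝ))) = 1 / y := by rw [Real.rpow_neg hX0.le, ← hy, one_div]
  rw [hyi]
  by_cases hsmall : ⌊y⌋₊ < 2 ^ L
  · -- the trivial bound
    have h1 : y ≤ 2 ^ L := by
      have h2 := Nat.lt_floor_add_one y
      have h3 : ((⌊y⌋₊ + 1 : ℕ) : ℝ) ≤ ((2 ^ L : ℕ) : ℝ) := by exact_mod_cast hsmall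
      push_cast at h3
      linarith
    have h2 : (univ.filter (fun χ : DirichletCharacter ℂ q => ∃ X H : ℝ, X₀ ≤ X ∧ 36 * X ^ 2 < q ∧ 1 ≤ H ∧
        H ≤ X ^ (1 - ε) ∧ (10 + 12 * 2 ^ L + 4 * CS L) * (H * X * X ^ (-(1 / (L : ℝ)))) <
          |W q a X (2 * X) χ H|)).card ≤ q - 1 := by
      refine (card_le_univ _).trans (le_of_eq ?_)
      rw [← Nat.card_eq_fintype_card, DirichletCharacter.card_eq_totient_of_hasEnoughRootsOfUnity ℂ q,
        Nat.totient_prime hq.out]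
    have h3 : (1 : ℝ) ≤ (10 + 12 * 2 ^ L + 4 * CS L) * (1 / y) := by
      rw [mul_one_div, one_le_div hy0]
      have : (0 : ℝ) ≤ 2 ^ L := by positivity
      linarith
    calc _ ≤ ((q - 1 : ℕ) : ℝ) := by exact_mod_cast h2
      _ = 1 * ((q - 1 : ℕ) : ℝ) := (one_mul _).symm
      _ ≤ _ := mul_le_mul_of_nonneg_right h3 hq1
  · push Not at hsmall
    set K := ⌊y⌋₊ with hK
    have hKy : (K : ℝ) ≤ y := Nat.floor_le hy0.le
    have hyK : y < K + 1 := Nat.lt_floor_add_one y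
    have hK1 : 1 ≤ K := le_trans Nat.one_le_two_pow hsmall
    have hKr : (1 : ℝ) ≤ K := by exact_mod_cast hK1
    have hKX : (K : ℝ) ^ L ≤ X₀ := by rw [← hyL]; exact pow_le_pow_left₀ (by linarith) hKy L
    have hb := all_bad q a ha L K hsmall hL1
    refine le_trans ?_ (hb.trans ?_)
    · refine Nat.cast_le.2 (card_le_card ?_)
      intro χ hχ
      rw [mem_filter] at hχ ⊢
      refine ⟨mem_univ _, ?_⟩
      by_contra hcon
      push Not at hcon
      obtain ⟨_, X, H, h1, h2, h3, h4, h5⟩ := hχ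
      have h6 := good q a ha L K hsmall hL1 ε hεL χ hcon X H (hKX.trans h1) h2 h3 h4
      have h7 : (10 + 12 * 2 ^ L : ℝ) * (H * X * X ^ (-(1 / (L : ℝ)))) ≤
          (10 + 12 * 2 ^ L + 4 * CS L) * (H * X * X ^ (-(1 / (L : ℝ)))) := by
        refine mul_le_mul_of_nonneg_right (by linarith) ?_
        have : 0 < X := by linarith
        positivity
      linarith
    · rw [mul_comm]
      refine mul_le_mul_of_nonneg_right ?_ hq1
      rw [mul_one_div, div_le_div_iff₀ (by linarith) hy0]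
      have h1 : y ≤ 2 * K := by linarith
      have h2 : 2 * CS L * y ≤ 2 * CS L * (2 * K) := mul_le_mul_of_nonneg_left h1 (by positivity)
      have h3 : (0 : ℝ) ≤ (10 + 12 * 2 ^ L) * K := by positivity
      nlinarith

/-- the Moebius function -/
noncomputable def mu (n : ℕ) : ℂ := ((ArithmeticFunction.moebius n : ℤ) : ℂ)

theorem mu_le (n : ℕ) : ‖mu n‖ ≤ 1 := by
  unfold mu
  rw [Complex.norm_intCast]
  have := ArithmeticFunction.abs_moebius_le_one (n := n)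
  exact_mod_cast this

theorem mu_sq (n : ℕ) : ‖mu n‖ ^ 2 = open Classical in (if Squarefree n then 1 else 0) := by
  unfold mu
  split_ifs with h
  · rw [Complex.norm_intCast]
    have h1 := ArithmeticFunction.moebius_sq_eq_one_of_squarefree h
    have h2 : ((ArithmeticFunction.moebius n : ℤ) : ℝ) ^ 2 = 1 := by exact_mod_cast h1
    rw [sq_abs, h2]
  · rw [ArithmeticFunction.moebius_eq_zero_of_not_squarefree h]
    simp

/-- the mean of the number of the squarefree integers -/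
theorem RR_mu : ∃ C : ℝ, 0 < C ∧ ∀ X H : ℝ, 1 ≤ X → 1 ≤ H → H ≤ X →
    |RR mu X (2 * X) H - 6 / Real.pi ^ 2 * H * X| ≤ C * (H * X * X ^ (-(1 / 4 : ℝ))) := by
  classical
  obtain ⟨C, hC, h⟩ := dg_bound (1 / 4) (by norm_num) (by norm_num)
  refine ⟨C, hC, fun X H hX hH hHX => ?_⟩
  have hX0 : 0 < X := by linarith
  set N := ⌈3 * X⌉₊ with hN
  have hN1 : 3 * X ≤ N := Nat.le_ceil _
  have h1 := h X H N hX (by linarith) hHX hN1
  have e1 : RR mu X (2 * X) H = X * dg X H N := by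
    rw [RR_eq mu (by linarith : X ≤ 2 * X) (by linarith : 0 < H) (by linarith : 2 * X + H ≤ N)]
    unfold dg
    rw [← mul_assoc, mul_one_div_cancel hX0.ne', one_mul, sum_filter]
    refine sum_congr rfl fun n _ => ?_
    rw [mu_sq]
    split_ifs
    · rw [mul_one]; rfl
    · rw [mul_zero]
  have e2 : RR mu X (2 * X) H - 6 / Real.pi ^ 2 * H * X = X * (dg X H N - 6 / Real.pi ^ 2 * H) := by
    rw [e1]; ring
  rw [e2, abs_mul, abs_of_pos hX0]
  have e3 : (1 / 4 - 1 / 2 : ℝ) = -(1 / 4) := by norm_num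
  rw [e3] at h1
  calc X * |dg X H N - 6 / Real.pi ^ 2 * H| ≤ X * (C * (H * X ^ (-(1 / 4 : ℝ)))) :=
        mul_le_mul_of_nonneg_left h1 hX0.le
    _ = _ := by ring

end Pool.Agent.U529.CV
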