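import Pool.Agent.U529.CV.Var
import Pool.Agent.U529.CV.Chr

/-! Uniformity in the length of the windows: chaining. -/

set_option autoImplicit false

namespace Pool.Agent.U529.CV

open Finset Filter Topology

/-- a deterministic chaining lemma -/
theorem chain (g : ℝ → ℝ) (H₀ Λ t : ℝ) (hH : 0 < H₀) (ht : 0 ≤ t)
    (hL : ∀ x y : ℝ, H₀ ≤ x → x ≤ y → y ≤ 2 * H₀ → |g y - g x| ≤ Λ * (y - x))
    (hi : ∀ i j : ℕ, j < 2 ^ i → |g (H₀ * (1 + (2 * j + 1) / 2 ^ (i + 1))) - g (H₀ * (1 + j / 2 ^ i))| ≤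
      t * (3 / 4) ^ i) (H : ℝ) (h1 : H₀ ≤ H) (h2 : H < 2 * H₀) : |g H - g H₀| ≤ 4 * t := by
  set y : ℝ := H / H₀ - 1 with hy
  have hy0 : 0 ≤ y := by
    rw [hy, sub_nonneg, le_div_iff₀ hH]; linarith
  have hy1 : y < 1 := by
    rw [hy, sub_lt_iff_lt_add, div_lt_iff₀ hH]; linarith
  have hHy : H = H₀ * (1 + y) := by
    rw [hy]; field_simp; ring
  set j : ℕ → ℕ := fun i => ⌊y * 2 ^ i⌋₊ with hj
  have hp2 : ∀ i : ℕ, (0 : ℝ) < 2 ^ i := fun i => by positivity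
  have jl : ∀ i, (j i : ℝ) ≤ y * 2 ^ i := fun i => Nat.floor_le (by have := hp2 i; positivity)
  have ju : ∀ i, y * 2 ^ i < (j i : ℝ) + 1 := fun i => Nat.lt_floor_add_one _
  have jlt : ∀ i, j i < 2 ^ i := by
    intro i
    have h3 : (j i : ℝ) < 2 ^ i := lt_of_le_of_lt (jl i) (by have := hp2 i; nlinarith)
    exact_mod_cast h3
  have jn : ∀ i, j (i + 1) = 2 * j i ∨ j (i + 1) = 2 * j i + 1 := by
    intro i
    have a1 := jl i
    have a2 := ju i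
    have a3 := jl (i + 1)
    have a4 := ju (i + 1)
    have e : y * 2 ^ (i + 1) = 2 * (y * 2 ^ i) := by ring
    rw [e] at a3 a4
    have b1 : (j (i + 1) : ℝ) < 2 * j i + 2 := by linarith
    have b2 : (2 * j i : ℝ) < j (i + 1) + 1 := by linarith
    have c1 : j (i + 1) < 2 * j i + 2 := by exact_mod_cast b1
    have c2 : 2 * j i < j (i + 1) + 1 := by exact_mod_cast b2
    omega
  have hsum : ∀ i, |g (H₀ * (1 + (j i : ℝ) / 2 ^ i)) - g H₀| ≤ t * ∑ k ∈ range i, (3 / 4 : ℝ) ^ k := by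
    intro i
    induction i with
    | zero =>
      have : j 0 = 0 := by have := jlt 0; simpa using this
      rw [this]
      simp
    | succ i ih =>
      rw [sum_range_succ, mul_add t]
      rcases jn i with h | h
      · rw [h]
        have e : H₀ * (1 + ((2 * j i : ℕ) : ℝ) / 2 ^ (i + 1)) = H₀ * (1 + (j i : ℝ) / 2 ^ i) := by
          push_cast
          rw [pow_succ]
          field_simp
        rw [e]
        have : 0 ≤ t * (3 / 4 : ℝ) ^ i := by positivity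
        linarith
      · rw [h]
        have h3 := hi i (j i) (jlt i)
        have e : H₀ * (1 + ((2 * j i + 1 : ℕ) : ℝ) / 2 ^ (i + 1)) = H₀ * (1 + (2 * (j i : ℝ) + 1) / 2 ^ (i + 1)) := by
          push_cast
          ring
        rw [e]
        have h4 := abs_sub_le (g (H₀ * (1 + (2 * (j i : ℝ) + 1) / 2 ^ (i + 1)))) (g (H₀ * (1 + (j i : ℝ) / 2 ^ i))) (g H₀)
        linarith
  have hgeo : ∀ i, ∑ k ∈ range i, (3 / 4 : ℝ) ^ k ≤ 4 := by
    intro i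
    rw [geom_sum_eq (by norm_num)]
    have : (0 : ℝ) ≤ (3 / 4) ^ i := by positivity
    rw [div_le_iff_of_neg (by norm_num)]
    linarith
  have hlim : Tendsto (fun i : ℕ => |Λ| * H₀ * (1 / 2 : ℝ) ^ i + 4 * t) atTop (𝓝 (|Λ| * H₀ * 0 + 4 * t)) :=
    ((tendsto_pow_atTop_nhds_zero_of_lt_one (by norm_num) (by norm_num)).const_mul _).add_const _
  rw [mul_zero, zero_add] at hlim
  refine ge_of_tendsto hlim (Eventually.of_forall fun i => ?_)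
  have hz1 : H₀ ≤ H₀ * (1 + (j i : ℝ) / 2 ^ i) := by
    have : 0 ≤ (j i : ℝ) / 2 ^ i := by positivity
    nlinarith
  have hz2 : H₀ * (1 + (j i : ℝ) / 2 ^ i) ≤ H := by
    rw [hHy]
    have : (j i : ℝ) / 2 ^ i ≤ y := by rw [div_le_iff₀ (hp2 i)]; exact jl i
    nlinarith
  have hz3 : H - H₀ * (1 + (j i : ℝ) / 2 ^ i) ≤ H₀ * (1 / 2) ^ i := by
    have h3 : y ≤ ((j i : ℝ) + 1) / 2 ^ i := by rw [le_div_iff₀ (hp2 i)]; exact (ju i).le
    have h4 : H - H₀ * (1 + (j i : ℝ) / 2 ^ i) = H₀ * (y - (j i : ℝ) / 2 ^ i) := by rw [hHy]; ring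
    have h5 : y - (j i : ℝ) / 2 ^ i ≤ (1 / 2) ^ i := by
      have : ((j i : ℝ) + 1) / 2 ^ i = (j i : ℝ) / 2 ^ i + (1 / 2) ^ i := by
        rw [add_div, one_div, one_div, inv_pow]
      linarith
    rw [h4]
    exact mul_le_mul_of_nonneg_left h5 hH.le
  have h6 := hL _ _ hz1 hz2 (by linarith)
  have h7 : Λ * (H - H₀ * (1 + (j i : ℝ) / 2 ^ i)) ≤ |Λ| * H₀ * (1 / 2) ^ i := by
    calc Λ * (H - H₀ * (1 + (j i : ℝ) / 2 ^ i)) ≤ |Λ| * (H - H₀ * (1 + (j i : ℝ) / 2 ^ i)) :=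
          mul_le_mul_of_nonneg_right (le_abs_self _) (by linarith)
      _ ≤ |Λ| * (H₀ * (1 / 2) ^ i) := mul_le_mul_of_nonneg_left hz3 (abs_nonneg _)
      _ = _ := by ring
  have h8 := hsum i
  have h9 : t * ∑ k ∈ range i, (3 / 4 : ℝ) ^ k ≤ t * 4 := mul_le_mul_of_nonneg_left (hgeo i) ht
  have h10 := abs_sub_le (g H) (g (H₀ * (1 + (j i : ℝ) / 2 ^ i))) (g H₀)
  linarith

/-- the deviation of the mean square -/
noncomputable def W (q : ℕ) (a : ℕ → ℂ) (A B : ℝ) (χ : DirichletCharacter ℂ q) (H : ℝ) : ℝ :=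
  UU (fun n => a n * χ (n : ZMod q)) A B H - RR a A B H

theorem chi_norm (q : ℕ) [hq : Fact q.Prime] (χ : DirichletCharacter ℂ q) (n : ℕ) (h1 : 1 ≤ n) (h2 : n < q) :
    ‖χ (n : ZMod q)‖ = 1 := by
  have hu : IsUnit (n : ZMod q) := by
    rw [isUnit_iff_ne_zero]
    intro h
    have := Nat.le_of_dvd h1 ((ZMod.natCast_eq_zero_iff n q).1 h)
    omega
  obtain ⟨u, hu⟩ := hu
  rw [← hu]
  exact DirichletCharacter.unit_norm_eq_one χ u

theorem W_eq (q : ℕ) [hq : Fact q.Prime] (a : ℕ → ℂ) {A B H : ℝ} {N D : ℕ} (hAB : A ≤ B) (hH : 0 < H)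
    (hN : B + H ≤ N) (hD : ⌊H⌋₊ ≤ D) (hNq : N < q) (χ : DirichletCharacter ℂ q) :
    ((W q a A B χ H : ℝ) : ℂ) = ∑ z ∈ pr N D, (((wg A B H z.1 z.2 : ℝ) : ℂ) *
      (a z.1 * (starRingEnd ℂ) (a z.2))) * (χ (z.1 : ZMod q) * (starRingEnd ℂ) (χ (z.2 : ZMod q))) := by
  have h1 := UU_split (fun n => a n * χ (n : ZMod q)) hAB hH hN hD
  have h2 : RR (fun n => a n * χ (n : ZMod q)) A B H = RR a A B H := by
    rw [RR_eq _ hAB hH hN, RR_eq _ hAB hH hN]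
    refine sum_congr rfl fun n hn => ?_
    rw [mem_Icc] at hn
    rw [norm_mul, chi_norm q χ n hn.1 (by omega), mul_one]
  unfold W
  rw [Complex.ofReal_sub, h1, h2, add_sub_cancel_left]
  refine sum_congr rfl fun z _ => ?_
  rw [map_mul]
  ring

theorem incr (q : ℕ) [hq : Fact q.Prime] (a : ℕ → ℂ) (ha : ∀ n, ‖a n‖ ≤ 1) {A B H H' : ℝ} {N D : ℕ} (hAB : A ≤ B)
    (hH : 0 < H) (hHH : H ≤ H') (hN : B + H' ≤ N) (hD : ⌊H'⌋₊ ≤ D) (hNq : N * N < q) :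
    ∑ χ : DirichletCharacter ℂ q, |W q a A B χ H' - W q a A B χ H| ^ 2 ≤
      ((q - 1 : ℕ) : ℝ) * (H' - H) ^ 2 * (2 * D * N * G D ^ 2) := by
  have hNq' : N < q := lt_of_le_of_lt (Nat.le_mul_self N) hNq
  have hD' : ⌊H⌋₊ ≤ D := (Nat.floor_mono hHH).trans hD
  set c : ℕ × ℕ → ℂ := fun z => ((wg A B H' z.1 z.2 - wg A B H z.1 z.2 : ℝ) : ℂ) *
      (a z.1 * (starRingEnd ℂ) (a z.2)) with hc
  have h1 : ∀ χ : DirichletCharacter ℂ q, |W q a A B χ H' - W q a A B χ H| = ‖∑ z ∈ pr N D, c z * (χ (z.1 : ZMod q) *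
      (starRingEnd ℂ) (χ (z.2 : ZMod q)))‖ := by
    intro χ
    have e : ((W q a A B χ H' - W q a A B χ H : ℝ) : ℂ) = ∑ z ∈ pr N D, c z * (χ (z.1 : ZMod q) *
      (starRingEnd ℂ) (χ (z.2 : ZMod q))) := by
      rw [Complex.ofReal_sub, W_eq q a hAB (hH.trans_le hHH) hN hD hNq' χ,
        W_eq q a hAB hH (by linarith) hD' hNq' χ, ← sum_sub_distrib]
      refine sum_congr rfl fun z _ => ?_
      rw [hc]
      push_cast
      ring
    rw [← e, Complex.norm_real, Real.norm_eq_abs]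
  rw [sum_congr rfl fun χ _ => by rw [h1 χ]]
  refine second q N D hNq c _ fun z _ => ?_
  rw [hc]
  dsimp only
  rw [norm_mul, norm_mul, RCLike.norm_conj, Complex.norm_real, Real.norm_eq_abs]
  have h2 := wg_lip A B H' H z.1 z.2
  rw [abs_of_nonneg (sub_nonneg.2 hHH)] at h2
  have h3 : ‖a z.1‖ * ‖a z.2‖ ≤ 1 := mul_le_one₀ (ha _) (norm_nonneg _) (ha _)
  calc |wg A B H' z.1 z.2 - wg A B H z.1 z.2| * (‖a z.1‖ * ‖a z.2‖) ≤ (H' - H) * 1 := by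
        refine mul_le_mul h2 h3 (by positivity) ?_
        linarith
    _ = _ := mul_one _

theorem base (q : ℕ) [hq : Fact q.Prime] (a : ℕ → ℂ) (ha : ∀ n, ‖a n‖ ≤ 1) {A B H : ℝ} {N D : ℕ} (hAB : A ≤ B)
    (hH : 0 < H) (hN : B + H ≤ N) (hD : ⌊H⌋₊ ≤ D) (hNq : N * N < q) :
    ∑ χ : DirichletCharacter ℂ q, |W q a A B χ H| ^ 2 ≤
      ((q - 1 : ℕ) : ℝ) * H ^ 2 * (2 * D * N * G D ^ 2) := by
  have hNq' : N < q := lt_of_le_of_lt (Nat.le_mul_self N) hNq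
  set c : ℕ × ℕ → ℂ := fun z => ((wg A B H z.1 z.2 : ℝ) : ℂ) *
      (a z.1 * (starRingEnd ℂ) (a z.2)) with hc
  have h1 : ∀ χ : DirichletCharacter ℂ q, |W q a A B χ H| = ‖∑ z ∈ pr N D, c z * (χ (z.1 : ZMod q) *
      (starRingEnd ℂ) (χ (z.2 : ZMod q)))‖ := by
    intro χ
    rw [← W_eq q a hAB hH hN hD hNq' χ, Complex.norm_real, Real.norm_eq_abs]
  rw [sum_congr rfl fun χ _ => by rw [h1 χ]]
  refine second q N D hNq c _ fun z _ => ?_
  rw [hc]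
  dsimp only
  rw [norm_mul, norm_mul, RCLike.norm_conj, Complex.norm_real, Real.norm_eq_abs,
    abs_of_nonneg (wg_nonneg _ _ _ _ _)]
  have h3 : ‖a z.1‖ * ‖a z.2‖ ≤ 1 := mul_le_one₀ (ha _) (norm_nonneg _) (ha _)
  calc wg A B H z.1 z.2 * (‖a z.1‖ * ‖a z.2‖) ≤ H * 1 := by
        refine mul_le_mul (wg_le hH.le _ _) h3 (by positivity) (by positivity)
    _ = _ := mul_one _

theorem lip (q : ℕ) [hq : Fact q.Prime] (a : ℕ → ℂ) (ha : ∀ n, ‖a n‖ ≤ 1) {A B H H' : ℝ} {N : ℕ} (hAB : A ≤ B)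
    (hH : 0 < H) (hHH : H ≤ H') (hN : B + H' ≤ N) (hNq : N < q) (χ : DirichletCharacter ℂ q) :
    |W q a A B χ H' - W q a A B χ H| ≤ ((pr N ⌊H'⌋₊).card : ℝ) * (H' - H) := by
  have hD' : ⌊H⌋₊ ≤ ⌊H'⌋₊ := Nat.floor_mono hHH
  have e : ((W q a A B χ H' - W q a A B χ H : ℝ) : ℂ) = ∑ z ∈ pr N ⌊H'⌋₊,
      (((wg A B H' z.1 z.2 - wg A B H z.1 z.2 : ℝ) : ℂ) *
      (a z.1 * (starRingEnd ℂ) (a z.2))) * (χ (z.1 : ZMod q) *
      (starRingEnd ℂ) (χ (z.2 : ZMod q))) := by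
    rw [Complex.ofReal_sub, W_eq q a hAB (hH.trans_le hHH) hN le_rfl hNq χ,
      W_eq q a hAB hH (by linarith) hD' hNq χ, ← sum_sub_distrib]
    refine sum_congr rfl fun z _ => ?_
    push_cast
    ring
  have h0 : |W q a A B χ H' - W q a A B χ H| = ‖((W q a A B χ H' - W q a A B χ H : ℝ) : ℂ)‖ := by
    rw [Complex.norm_real, Real.norm_eq_abs]
  rw [h0, e]
  refine (norm_sum_le _ _).trans ?_
  have hb : ∀ z ∈ pr N ⌊H'⌋₊, ‖(((wg A B H' z.1 z.2 - wg A B H z.1 z.2 : ℝ) : ℂ) *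
      (a z.1 * (starRingEnd ℂ) (a z.2))) * (χ (z.1 : ZMod q) *
      (starRingEnd ℂ) (χ (z.2 : ZMod q)))‖ ≤ (H' - H) := by
    intro z _
    rw [norm_mul, norm_mul, norm_mul, norm_mul, RCLike.norm_conj, RCLike.norm_conj, Complex.norm_real,
      Real.norm_eq_abs]
    have h2 := wg_lip A B H' H z.1 z.2
    rw [abs_of_nonneg (sub_nonneg.2 hHH)] at h2
    have h3 : ‖a z.1‖ * ‖a z.2‖ ≤ 1 := mul_le_one₀ (ha _) (norm_nonneg _) (ha _)
    have h4 : ‖χ (z.1 : ZMod q)‖ * ‖χ (z.2 : ZMod q)‖ ≤ 1 :=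
      mul_le_one₀ (DirichletCharacter.norm_le_one _ _) (norm_nonneg _) (DirichletCharacter.norm_le_one _ _)
    have hw : 0 ≤ H' - H := by linarith
    calc |wg A B H' z.1 z.2 - wg A B H z.1 z.2| * (‖a z.1‖ * ‖a z.2‖) *
          (‖χ (z.1 : ZMod q)‖ * ‖χ (z.2 : ZMod q)‖) ≤ (H' - H) * 1 * 1 := by
          exact mul_le_mul (mul_le_mul h2 h3 (by positivity) hw) h4 (by positivity) (by linarith)
      _ = _ := by ring
  refine (sum_le_sum hb).trans (le_of_eq ?_)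
  rw [sum_const, nsmul_eq_mul]

end Pool.Agent.U529.CV
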