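import Pool.Agent.U585.GC.Diag
import Pool.Agent.U529.CV.Cnt

/-! The mean square in windows over an interval `[A, B]`: expansion. -/

set_option autoImplicit false

namespace Pool.Agent.U529.CV

open Finset MeasureTheory
open Pool.Agent.U585.GC (ind mem_win ind_mul ov)

/-- the sum over a window -/
noncomputable def MM (f : ℕ → ℂ) (x H : ℝ) : ℂ :=
  ∑ n ∈ (range (⌈x + H⌉₊ + 1)).filter (fun n : ℕ => 1 ≤ n ∧ |(n : ℝ) - x| < H / 2), f n

/-- the sum of the squares over a window -/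
noncomputable def SS (f : ℕ → ℂ) (x H : ℝ) : ℝ :=
  ∑ n ∈ (range (⌈x + H⌉₊ + 1)).filter (fun n : ℕ => 1 ≤ n ∧ |(n : ℝ) - x| < H / 2), ‖f n‖ ^ 2

/-- the mean square over an interval -/
noncomputable def UU (f : ℕ → ℂ) (A B H : ℝ) : ℝ := ∫ x in A..B, ‖MM f x H‖ ^ 2

/-- the mean of the sum of the squares -/
noncomputable def RR (f : ℕ → ℂ) (A B H : ℝ) : ℝ := ∫ x in A..B, SS f x H

/-- measure of the set of the `x` in `[A, B]` with `m` and `n` in the window -/
noncomputable def wg (A B H : ℝ) (m n : ℕ) : ℝ :=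
  max 0 (min B (min (m : ℝ) n + H / 2) - max A (max (m : ℝ) n - H / 2))

theorem wg_nonneg (A B H : ℝ) (m n : ℕ) : 0 ≤ wg A B H m n := le_max_left _ _

theorem wg_le {A B H : ℝ} (hH : 0 ≤ H) (m n : ℕ) : wg A B H m n ≤ H := by
  unfold wg
  refine max_le hH ?_
  have h1 : min B (min (m : ℝ) n + H / 2) ≤ min (m : ℝ) n + H / 2 := min_le_right _ _
  have h2 : max (m : ℝ) n - H / 2 ≤ max A (max (m : ℝ) n - H / 2) := le_max_right _ _
  have h3 : min (m : ℝ) n ≤ max (m : ℝ) n := min_le_max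
  linarith

theorem wg_pos {A B H : ℝ} {m n : ℕ} (h : 0 < wg A B H m n) : |(m : ℝ) - n| < H := by
  unfold wg at h
  rw [lt_max_iff] at h
  rcases h with h | h
  · exact absurd h (lt_irrefl _)
  have h1 : min B (min (m : ℝ) n + H / 2) ≤ min (m : ℝ) n + H / 2 := min_le_right _ _
  have h2 : max (m : ℝ) n - H / 2 ≤ max A (max (m : ℝ) n - H / 2) := le_max_right _ _
  have a5 : max (m : ℝ) n - min (m : ℝ) n = |(m : ℝ) - n| := by
    rw [max_sub_min_eq_abs']
  linarith

theorem wg_lip (A B H H' : ℝ) (m n : ℕ) : |wg A B H m n - wg A B H' m n| ≤ |H - H'| := by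
  unfold wg
  refine (abs_max_sub_max_le_max _ _ _ _).trans ?_
  rw [sub_self, abs_zero]
  refine max_le (by positivity) ?_
  have h1 := abs_min_sub_min_le_max B (min (m : ℝ) n + H / 2) B (min (m : ℝ) n + H' / 2)
  have h2 := abs_max_sub_max_le_max A (max (m : ℝ) n - H / 2) A (max (m : ℝ) n - H' / 2)
  have e2 : |min (m : ℝ) n + H / 2 - (min (m : ℝ) n + H' / 2)| = |H - H'| / 2 := by
    have : min (m : ℝ) n + H / 2 - (min (m : ℝ) n + H' / 2) = (H - H') / 2 := by ring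
    rw [this, abs_div]; norm_num
  have e3 : |max (m : ℝ) n - H / 2 - (max (m : ℝ) n - H' / 2)| = |H - H'| / 2 := by
    have : max (m : ℝ) n - H / 2 - (max (m : ℝ) n - H' / 2) = -((H - H') / 2) := by ring
    rw [this, abs_neg, abs_div]; norm_num
  rw [sub_self, abs_zero, e2] at h1
  rw [sub_self, abs_zero, e3] at h2
  have p2 := abs_nonneg (H - H')
  have h3 : max 0 (|H - H'| / 2) ≤ |H - H'| / 2 := max_le (by linarith) le_rfl
  have h5 : ∀ a b c d : ℝ, a - b - (c - d) = (a - c) - (b - d) := fun a b c d => by ring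
  rw [h5]
  refine (abs_sub _ _).trans ?_
  linarith

theorem int_wg {A B : ℝ} (hAB : A ≤ B) (H : ℝ) (m n : ℕ) :
    ∫ x in A..B, ind H m x * ind H n x = wg A B H m n := by
  simp_rw [ind_mul]
  rw [ov hAB]
  rfl

theorem ind_ii (A B H : ℝ) (m n : ℕ) :
    IntervalIntegrable (fun x => ind H m x * ind H n x) volume A B := by
  simp_rw [ind_mul]
  refine Integrable.intervalIntegrable ?_
  rw [integrable_indicator_iff measurableSet_Ioo]
  exact integrableOn_const (by simp) (by simp)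

theorem win_sum {E : Type*} [NormedAddCommGroup E] [NormedSpace ℝ E] (f : ℕ → E) {x B H : ℝ} {N : ℕ}
    (hx : x ≤ B) (hN : B + H ≤ N) (hH : 0 < H) :
    ∑ n ∈ (range (⌈x + H⌉₊ + 1)).filter (fun n : ℕ => 1 ≤ n ∧ |(n : ℝ) - x| < H / 2), f n =
      ∑ n ∈ Icc 1 N, ind H n x • f n := by
  classical
  have h1 : ∑ n ∈ Icc 1 N, ind H n x • f n =
      ∑ n ∈ (Icc 1 N).filter (fun n : ℕ => |(n : ℝ) - x| < H / 2), f n := by
    rw [sum_filter]
    refine sum_congr rfl fun n _ => ?_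
    unfold ind
    by_cases h : |(n : ℝ) - x| < H / 2
    · rw [if_pos h, Set.indicator_of_mem ((mem_win H n x).1 h), one_smul]
    · rw [if_neg h, Set.indicator_of_notMem (fun hc => h ((mem_win H n x).2 hc)), zero_smul]
  rw [h1]
  refine sum_congr ?_ (fun _ _ => rfl)
  ext n
  rw [mem_filter, mem_filter, mem_range, mem_Icc]
  constructor
  · rintro ⟨h2, h3, h4⟩
    refine ⟨⟨h3, ?_⟩, h4⟩
    have h5 := (abs_lt.1 h4).2
    have h6 : (n : ℝ) < N := by linarith
    exact (Nat.cast_lt.1 h6).le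
  · rintro ⟨⟨h2, h3⟩, h4⟩
    refine ⟨?_, h2, h4⟩
    have h5 := (abs_lt.1 h4).2
    have h6 : (n : ℝ) ≤ ⌈x + H⌉₊ := by
      have := Nat.le_ceil (x + H)
      linarith
    have h7 : n ≤ ⌈x + H⌉₊ := by exact_mod_cast h6
    omega

theorem RR_eq (f : ℕ → ℂ) {A B H : ℝ} {N : ℕ} (hAB : A ≤ B) (hH : 0 < H) (hN : B + H ≤ N) :
    RR f A B H = ∑ n ∈ Icc 1 N, wg A B H n n * ‖f n‖ ^ 2 := by
  unfold RR SS
  have h1 : ∫ x in A..B, ∑ n ∈ (range (⌈x + H⌉₊ + 1)).filter (fun n : ℕ => 1 ≤ n ∧ |(n : ℝ) - x| < H / 2),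
      ‖f n‖ ^ 2 = ∫ x in A..B, ∑ n ∈ Icc 1 N, (ind H n x * ind H n x) * ‖f n‖ ^ 2 := by
    refine intervalIntegral.integral_congr fun x hx => ?_
    rw [Set.uIcc_of_le hAB] at hx
    rw [win_sum (fun n => ‖f n‖ ^ 2) hx.2 hN hH]
    refine sum_congr rfl fun n _ => ?_
    have : ind H n x * ind H n x = ind H n x := by
      unfold ind
      by_cases h : x ∈ Set.Ioo ((n : ℝ) - H / 2) (n + H / 2)
      · rw [Set.indicator_of_mem h, one_mul]
      · rw [Set.indicator_of_notMem h, zero_mul]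
    rw [this, smul_eq_mul]
  rw [h1, intervalIntegral.integral_finsetSum]
  · refine sum_congr rfl fun n _ => ?_
    rw [intervalIntegral.integral_mul_const, int_wg hAB]
  · intro n _
    exact (ind_ii A B H n n).mul_const _

theorem UU_expand (f : ℕ → ℂ) {A B H : ℝ} {N : ℕ} (hAB : A ≤ B) (hH : 0 < H) (hN : B + H ≤ N) :
    ((UU f A B H : ℝ) : ℂ) = ∑ z ∈ Icc 1 N ×ˢ Icc 1 N,
      ((wg A B H z.1 z.2 : ℝ) : ℂ) * (f z.1 * (starRingEnd ℂ) (f z.2)) := by
  have h1 : ((∫ x in A..B, ‖MM f x H‖ ^ 2 : ℝ) : ℂ) = ∫ x in A..B,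
      ∑ z ∈ Icc 1 N ×ˢ Icc 1 N, ((ind H z.1 x * ind H z.2 x : ℝ) : ℂ) * (f z.1 * (starRingEnd ℂ) (f z.2)) := by
    rw [← intervalIntegral.integral_ofReal]
    refine intervalIntegral.integral_congr fun x hx => ?_
    rw [Set.uIcc_of_le hAB] at hx
    have e1 : MM f x H = ∑ n ∈ Icc 1 N, (ind H n x : ℂ) * f n := by
      unfold MM
      rw [win_sum f hx.2 hN hH]
      exact sum_congr rfl fun n _ => Complex.real_smul
    have e2 : ((‖MM f x H‖ ^ 2 : ℝ) : ℂ) = MM f x H * (starRingEnd ℂ) (MM f x H) := by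
      rw [Complex.mul_conj']
      push_cast
      rfl
    rw [e2, e1, map_sum, sum_mul_sum, sum_product]
    refine sum_congr rfl fun m _ => sum_congr rfl fun n _ => ?_
    rw [map_mul, Complex.conj_ofReal]
    push_cast
    ring
  unfold UU
  rw [h1, intervalIntegral.integral_finsetSum]
  · refine sum_congr rfl fun z _ => ?_
    rw [intervalIntegral.integral_mul_const, intervalIntegral.integral_ofReal, int_wg hAB]
  · intro z _
    have hi := ind_ii A B H z.1 z.2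
    have hi2 : IntervalIntegrable (fun x => ((ind H z.1 x * ind H z.2 x : ℝ) : ℂ)) volume A B :=
      ⟨hi.1.ofReal, hi.2.ofReal⟩
    exact hi2.mul_const _

theorem UU_split (f : ℕ → ℂ) {A B H : ℝ} {N D : ℕ} (hAB : A ≤ B) (hH : 0 < H) (hN : B + H ≤ N)
    (hD : ⌊H⌋₊ ≤ D) :
    ((UU f A B H : ℝ) : ℂ) = ((RR f A B H : ℝ) : ℂ) + ∑ z ∈ pr N D,
      ((wg A B H z.1 z.2 : ℝ) : ℂ) * (f z.1 * (starRingEnd ℂ) (f z.2)) := by
  classical
  rw [UU_expand f hAB hH hN, RR_eq f hAB hH hN,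
    ← sum_filter_add_sum_filter_not (Icc 1 N ×ˢ Icc 1 N) (fun z => z.1 = z.2)]
  congr 1
  · have e1 : (Icc 1 N ×ˢ Icc 1 N).filter (fun z : ℕ × ℕ => z.1 = z.2) = (Icc 1 N).image (fun n => (n, n)) := by
      ext z
      rw [mem_filter, mem_product, mem_image]
      constructor
      · rintro ⟨⟨h1, _⟩, h3⟩
        exact ⟨z.1, h1, Prod.ext rfl h3⟩
      · rintro ⟨n, hn, rfl⟩
        exact ⟨⟨hn, hn⟩, rfl⟩
    rw [e1, sum_image (by intro x _ y _ h; exact (Prod.mk.inj h).1)]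
    push_cast
    refine sum_congr rfl fun n _ => ?_
    rw [Complex.mul_conj']
  · symm
    refine sum_subset ?_ ?_
    · intro z hz
      obtain ⟨k1, k2, k3, k4, k5, _, _⟩ := mem_pr.1 hz
      rw [mem_filter, mem_product, mem_Icc, mem_Icc]
      exact ⟨⟨⟨k1, k2⟩, ⟨k3, k4⟩⟩, k5⟩
    · intro z hz hz'
      rw [mem_filter, mem_product, mem_Icc, mem_Icc] at hz
      have h0 : wg A B H z.1 z.2 = 0 := by
        by_contra hne
        have hpos : 0 < wg A B H z.1 z.2 := lt_of_le_of_ne (wg_nonneg _ _ _ _ _) (Ne.symm hne)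
        have h5 := wg_pos hpos
        apply hz'
        rw [mem_pr]
        have h6 := abs_lt.1 h5
        have a1 : z.1 ≤ z.2 + D := by
          rcases le_total z.1 z.2 with h | h
          · omega
          · have : ((z.1 - z.2 : ℕ) : ℝ) ≤ H := by rw [Nat.cast_sub h]; linarith
            have := Nat.le_floor this
            omega
        have a2 : z.2 ≤ z.1 + D := by
          rcases le_total z.2 z.1 with h | h
          · omega
          · have : ((z.2 - z.1 : ℕ) : ℝ) ≤ H := by rw [Nat.cast_sub h]; linarith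
            have := Nat.le_floor this
            omega
        exact ⟨hz.1.1.1, hz.1.1.2, hz.1.2.1, hz.1.2.2, hz.2, a1, a2⟩
      rw [h0]
      simp

/-- integrability in `x` -/
theorem MM_ii (f : ℕ → ℂ) {A B H : ℝ} (hAB : A ≤ B) (hH : 0 < H) :
    IntervalIntegrable (fun x => ‖MM f x H‖ ^ 2) volume A B := by
  set N := ⌈B + H⌉₊ with hN
  have hN1 : B + H ≤ N := Nat.le_ceil _
  have h1 : IntervalIntegrable (fun x => (∑ z ∈ Icc 1 N ×ˢ Icc 1 N,
      ((ind H z.1 x * ind H z.2 x : ℝ) : ℂ) * (f z.1 * (starRingEnd ℂ) (f z.2))).re) volume A B := by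
    have h2 : IntervalIntegrable (fun x => ∑ z ∈ Icc 1 N ×ˢ Icc 1 N,
        ((ind H z.1 x * ind H z.2 x : ℝ) : ℂ) * (f z.1 * (starRingEnd ℂ) (f z.2))) volume A B := by
      have hz : ∀ z : ℕ × ℕ, IntervalIntegrable (fun x =>
          ((ind H z.1 x * ind H z.2 x : ℝ) : ℂ) * (f z.1 * (starRingEnd ℂ) (f z.2))) volume A B := by
        intro z
        have hi := ind_ii A B H z.1 z.2
        have hi2 : IntervalIntegrable (fun x => ((ind H z.1 x * ind H z.2 x : ℝ) : ℂ)) volume A B :=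
          ⟨hi.1.ofReal, hi.2.ofReal⟩
        exact hi2.mul_const _
      exact ⟨integrable_finsetSum _ fun z _ => (hz z).1, integrable_finsetSum _ fun z _ => (hz z).2⟩
    exact ⟨h2.1.re, h2.2.re⟩
  refine h1.congr ?_
  intro x hx
  rw [Set.uIoc_of_le hAB] at hx
  have e1 : MM f x H = ∑ n ∈ Icc 1 N, (ind H n x : ℂ) * f n := by
    unfold MM
    rw [win_sum f hx.2 hN1 hH]
    exact sum_congr rfl fun n _ => Complex.real_smul
  have e2 : ((‖MM f x H‖ ^ 2 : ℝ) : ℂ) = MM f x H * (starRingEnd ℂ) (MM f x H) := by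
    rw [Complex.mul_conj']
    push_cast
    rfl
  have e3 : ((‖MM f x H‖ ^ 2 : ℝ) : ℂ) = ∑ z ∈ Icc 1 N ×ˢ Icc 1 N,
      ((ind H z.1 x * ind H z.2 x : ℝ) : ℂ) * (f z.1 * (starRingEnd ℂ) (f z.2)) := by
    rw [e2, e1, map_sum, sum_mul_sum, sum_product]
    refine sum_congr rfl fun m _ => sum_congr rfl fun n _ => ?_
    rw [map_mul, Complex.conj_ofReal]
    push_cast
    ring
  dsimp only
  rw [← e3, Complex.ofReal_re]

theorem SS_ii (f : ℕ → ℂ) {A B H : ℝ} (hAB : A ≤ B) (hH : 0 < H) :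
    IntervalIntegrable (fun x => SS f x H) volume A B := by
  set N := ⌈B + H⌉₊ with hN
  have hN1 : B + H ≤ N := Nat.le_ceil _
  have hz : ∀ n : ℕ, IntervalIntegrable (fun x => (ind H n x * ind H n x) * ‖f n‖ ^ 2) volume A B :=
    fun n => (ind_ii A B H n n).mul_const _
  have h1 : IntervalIntegrable (fun x => ∑ n ∈ Icc 1 N, (ind H n x * ind H n x) * ‖f n‖ ^ 2) volume A B :=
    ⟨integrable_finsetSum _ fun n _ => (hz n).1, integrable_finsetSum _ fun n _ => (hz n).2⟩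
  refine h1.congr ?_
  intro x hx
  rw [Set.uIoc_of_le hAB] at hx
  dsimp only
  unfold SS
  rw [win_sum (fun n => ‖f n‖ ^ 2) hx.2 hN1 hH]
  refine sum_congr rfl fun n _ => ?_
  have : ind H n x * ind H n x = ind H n x := by
    unfold ind
    by_cases h : x ∈ Set.Ioo ((n : ℝ) - H / 2) (n + H / 2)
    · rw [Set.indicator_of_mem h, one_mul]
    · rw [Set.indicator_of_notMem h, zero_mul]
  rw [this, smul_eq_mul]

end Pool.Agent.U529.CV
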